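import Pool.Agent.Lib_helper45.C8.Merge

/-!
# Every vertex has one of the 71 closures
-/

set_option autoImplicit false

namespace Pool.Agent.C8

open SimpleGraph Pool.Agent.Cyc27

/-- `π` is an isomorphism from `C` to `W` -/
def isoOK (W C : Code) (π : List ℕ) : Bool :=
  W.length == C.length && C.length ≤ 5 &&
    (List.range 3).all (fun i => decide (π.getD i 0 < 3)) &&
    (List.range (C.length + 3)).all (fun i => decide (π.getD i 0 < C.length + 3)) &&
    π.getD (C.length + 2) 0 == C.length + 2 &&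
    (List.range (C.length + 3)).all (fun i => (List.range (C.length + 3)).all (fun j =>
      i == j || π.getD i 0 != π.getD j 0)) &&
    (List.range C.length).all (fun k =>
      decide ((C.getD k (0, 0)).1 < k + 3) && decide ((C.getD k (0, 0)).2 < k + 3) &&
      decide (3 ≤ π.getD (k + 3) 0) &&
      (((W.getD (π.getD (k + 3) 0 - 3) (0, 0)).1 == π.getD (C.getD k (0, 0)).1 0 &&
        (W.getD (π.getD (k + 3) 0 - 3) (0, 0)).2 == π.getD (C.getD k (0, 0)).2 0) ||
       ((W.getD (π.getD (k + 3) 0 - 3) (0, 0)).1 == π.getD (C.getD k (0, 0)).2 0 &&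
        (W.getD (π.getD (k + 3) 0 - 3) (0, 0)).2 == π.getD (C.getD k (0, 0)).1 0)))

def tblOK : Bool := tbl.all (fun e => codes.contains e.2.1 && isoOK e.1 e.2.1 e.2.2)

theorem tblOK_true : tblOK = true := by decide +kernel

def codesOK : Bool := codes.all (fun C => decide (C.length ≤ 5) &&
  (List.range C.length).all (fun k => decide ((C.getD k (0, 0)).1 < k + 3) &&
    decide ((C.getD k (0, 0)).2 < k + 3)))

theorem codesOK_true : codesOK = true := by decide +kernel

theorem getD_eq {α : Type*} (L : List α) (d : α) (k : ℕ) (h : k < L.length) : L.getD k d = L[k] := by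
  rw [List.getD_eq_getElem?_getD, List.getElem?_eq_getElem h]
  rfl

variable {P : Par} {N : ℕ}

theorem Emb.iso {W C : Code} {π : List ℕ} {g : ℕ → ℕ} (E : Emb P N W g)
    (h : isoOK W C π = true) :
    W.length = C.length ∧ C.length ≤ 5 ∧ π.getD (C.length + 2) 0 = C.length + 2 ∧
      (∀ i, i < C.length + 3 → π.getD i 0 < C.length + 3) ∧
      Emb P N C (fun i => g (π.getD i 0)) := by
  unfold isoOK at h
  simp only [Bool.and_eq_true, List.all_eq_true, List.mem_range, beq_iff_eq, decide_eq_true_eq,
    Bool.or_eq_true, bne_iff_ne] at h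
  obtain ⟨⟨⟨⟨⟨⟨h1, h2⟩, h3⟩, h4⟩, h5⟩, h6⟩, h7⟩ := h
  refine ⟨h1, h2, h5, h4, ?_, ?_, ?_, ?_⟩
  · intro i hi
    exact E.lt _ (by rw [h1]; exact h4 i hi)
  · intro i j hi hj hij
    have h8 := E.inj _ _ (by rw [h1]; exact h4 i hi) (by rw [h1]; exact h4 j hj) hij
    rcases h6 i hi j hj with h9 | h9
    · exact h9
    · exact absurd h8 h9
  · intro i hi
    exact E.base _ (h3 i hi)
  · intro k hk
    obtain ⟨⟨⟨h8, h9⟩, h10⟩, h11⟩ := h7 k hk
    have hk3 := h4 (k + 3) (by omega)
    rw [getD_eq C _ k hk] at h8 h9 h11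
    have hlt : π.getD (k + 3) 0 - 3 < W.length := by omega
    rw [getD_eq W _ _ hlt] at h11
    refine ⟨h8, h9, ?_⟩
    obtain ⟨h12, h13, h14⟩ := E.par (π.getD (k + 3) 0 - 3) hlt
    rw [Nat.sub_add_cancel h10] at h14
    obtain ⟨h15, h16⟩ := h14
    refine ⟨h15, ?_⟩
    show (P.p (g (π.getD (k + 3) 0)) = g (π.getD (C[k]).1 0) ∧
      P.q (g (π.getD (k + 3) 0)) = g (π.getD (C[k]).2 0)) ∨
      (P.p (g (π.getD (k + 3) 0)) = g (π.getD (C[k]).2 0) ∧
      P.q (g (π.getD (k + 3) 0)) = g (π.getD (C[k]).1 0))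
    rcases h11 with ⟨h17, h18⟩ | ⟨h17, h18⟩
    · rw [h17, h18] at h16
      exact h16
    · rw [h17, h18] at h16
      exact h16.symm

theorem eqPair_true {p q : ℕ × ℕ} (h : eqPair p q = true) : p = q := by
  obtain ⟨h1, h2⟩ := andb_true h
  exact Prod.ext (Nat.eq_of_beq_eq_true h1) (Nat.eq_of_beq_eq_true h2)

theorem eqCode_true (U : Code) : ∀ W, eqCode U W = true → U = W := by
  induction U with
  | nil =>
    intro W h
    cases W with
    | nil => rfl
    | cons q W => exact absurd h (by simp [eqCode])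
  | cons p U ih =>
    intro W h
    cases W with
    | nil => exact absurd h (by simp [eqCode])
    | cons q W =>
      have h1 : andb (eqPair p q) (eqCode U W) = true := h
      obtain ⟨h2, h3⟩ := andb_true h1
      rw [eqPair_true h2, ih W h3]

theorem look_true (T : Tbl) (W : Code) (h : look T W = true) : ∃ e ∈ T, e.1 = W := by
  induction T with
  | nil => exact absurd h (by simp [look])
  | cons e T ih =>
    have h1 : orb (eqCode e.1 W) (look T W) = true := h
    rcases orb_true h1 with h2 | h2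
    · exact ⟨e, List.mem_cons_self, eqCode_true _ _ h2⟩
    · obtain ⟨e', h3, h4⟩ := ih h2
      exact ⟨e', List.mem_cons_of_mem _ h3, h4⟩

theorem Emb.table {W : Code} {g : ℕ → ℕ} (E : Emb P N W g) (h : look tbl W = true) :
    ∃ C ∈ codes, ∃ g' : ℕ → ℕ, Emb P N C g' ∧ g' (C.length + 2) = g (W.length + 2) ∧
      ∀ i, i < C.length + 3 → ∃ j, j < W.length + 3 ∧ g' i = g j := by
  obtain ⟨e, he, rfl⟩ := look_true _ _ h
  have h1 := tblOK_true
  unfold tblOK at h1
  rw [List.all_eq_true] at h1
  have h2 := h1 e he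
  rw [Bool.and_eq_true] at h2
  obtain ⟨h3, h4⟩ := h2
  obtain ⟨h5, h6, h7, h8, h9⟩ := E.iso h4
  refine ⟨e.2.1, by simpa using h3, _, h9, ?_, ?_⟩
  · show g (e.2.2.getD (e.2.1.length + 2) 0) = _
    rw [h7, h5]
  · intro i hi
    exact ⟨_, by rw [h5]; exact h8 i hi, rfl⟩

theorem perm_fin : ∀ a b c : Fin 3, a ≠ b → a ≠ c → b ≠ c →
    ∃ d : Fin 6, perm d.val 0 = a.val ∧ perm d.val 1 = b.val ∧ perm d.val 2 = c.val := by
  decide

theorem perm_exists (a : ℕ) (ha : a < 3) (b : ℕ) (hb : b < 3) (c : ℕ) (hc : c < 3) (hab : a ≠ b)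
    (hac : a ≠ c) (hbc : b ≠ c) :
    ∃ d, d < 6 ∧ perm d 0 = a ∧ perm d 1 = b ∧ perm d 2 = c := by
  obtain ⟨d, h1, h2, h3⟩ := perm_fin ⟨a, ha⟩ ⟨b, hb⟩ ⟨c, hc⟩ (fun h => hab (Fin.mk.inj h))
    (fun h => hac (Fin.mk.inj h)) (fun h => hbc (Fin.mk.inj h))
  exact ⟨d.val, d.isLt, h1, h2, h3⟩

theorem match_base {A B : Code} {g h : ℕ → ℕ} (EA : Emb P N A g) (EB : Emb P N B h) :
    ∃ d, d < 6 ∧ ∀ i, i < 3 → perm d i < 3 ∧ h i = g (perm d i) := by
  have hs : ∀ y, y < 3 → ∃ j, j < 3 ∧ g j = y := by
    intro y hy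
    have a0 := EA.base 0 (by omega)
    have a1 := EA.base 1 (by omega)
    have a2 := EA.base 2 (by omega)
    have b01 : g 0 ≠ g 1 := fun h => absurd (EA.inj 0 1 (by omega) (by omega) h) (by omega)
    have b02 : g 0 ≠ g 2 := fun h => absurd (EA.inj 0 2 (by omega) (by omega) h) (by omega)
    have b12 : g 1 ≠ g 2 := fun h => absurd (EA.inj 1 2 (by omega) (by omega) h) (by omega)
    have : y = g 0 ∨ y = g 1 ∨ y = g 2 := by omega
    rcases this with h | h | h
    · exact ⟨0, by omega, h.symm⟩
    · exact ⟨1, by omega, h.symm⟩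
    · exact ⟨2, by omega, h.symm⟩
  obtain ⟨j0, hj0, e0⟩ := hs (h 0) (EB.base 0 (by omega))
  obtain ⟨j1, hj1, e1⟩ := hs (h 1) (EB.base 1 (by omega))
  obtain ⟨j2, hj2, e2⟩ := hs (h 2) (EB.base 2 (by omega))
  have n01 : j0 ≠ j1 := by
    intro hh
    rw [hh, e1] at e0
    exact absurd (EB.inj 1 0 (by omega) (by omega) e0) (by omega)
  have n02 : j0 ≠ j2 := by
    intro hh
    rw [hh, e2] at e0
    exact absurd (EB.inj 2 0 (by omega) (by omega) e0) (by omega)
  have n12 : j1 ≠ j2 := by
    intro hh
    rw [hh, e2] at e1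
    exact absurd (EB.inj 2 1 (by omega) (by omega) e1) (by omega)
  obtain ⟨d, hd, d0, d1, d2⟩ := perm_exists j0 hj0 j1 hj1 j2 hj2 n01 n02 n12
  refine ⟨d, hd, ?_⟩
  intro i hi
  have : i = 0 ∨ i = 1 ∨ i = 2 := by omega
  rcases this with rfl | rfl | rfl
  · rw [d0]; exact ⟨hj0, e0.symm⟩
  · rw [d1]; exact ⟨hj1, e1.symm⟩
  · rw [d2]; exact ⟨hj2, e2.symm⟩

theorem chk : chkL tbl codes [] = true := by decide +kernel

theorem chkPair_true {T : Tbl} {A B : Code} (h : chkPair T A B = true) (c : ℕ) (hc : c < 6) :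
    merge (fin T (A.length + 2)) B A (adjOf A 3 base) (A.length + 3) 3 (perm c) = true := by
  have key : ∀ m, (Nat.rec (motive := fun _ => Bool) true (fun c ih => andb
    (merge (fin T (Nat.add (List.length A) 2)) B A (adjOf A 3 base) (Nat.add (List.length A) 3) 3
      (perm c)) ih) m : Bool) = true → ∀ c < m,
      merge (fin T (A.length + 2)) B A (adjOf A 3 base) (A.length + 3) 3 (perm c) = true := by
    intro m
    induction m with
    | zero => intro _ c hc; omega
    | succ m ih =>
      intro h c hc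
      obtain ⟨h1, h2⟩ := andb_true h
      by_cases hcm : c = m
      · rw [hcm]; exact h1
      · exact ih h2 c (by omega)
  exact key 6 h c hc

theorem chkA_true {T : Tbl} {A : Code} (L : List Code) (h : chkA T A L = true) :
    ∀ B ∈ L, chkPair T A B = true := by
  induction L with
  | nil => intro B hB; exact absurd hB (by simp)
  | cons C L ih =>
    intro B hB
    have h1 : andb (chkPair T A C) (chkA T A L) = true := h
    obtain ⟨h2, h3⟩ := andb_true h1
    rcases List.mem_cons.1 hB with rfl | hB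
    · exact h2
    · exact ih h3 B hB

theorem chkL_true {T : Tbl} (L : List Code) : ∀ pre, chkL T L pre = true →
    ∀ A ∈ L, ∀ B, (B ∈ pre ∨ B ∈ L) → chkPair T A B = true ∨ (chkPair T B A = true ∧ B ∈ L) := by
  induction L with
  | nil => intro pre _ A hA; exact absurd hA (by simp)
  | cons C L ih =>
    intro pre h A hA B hB
    have h1 : andb (chkA T C (C :: pre)) (chkL T L (C :: pre)) = true := h
    obtain ⟨h2, h3⟩ := andb_true h1
    rcases List.mem_cons.1 hA with rfl | hA'
    · rcases hB with hB | hB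
      · exact Or.inl (chkA_true _ h2 B (List.mem_cons_of_mem _ hB))
      · rcases List.mem_cons.1 hB with rfl | hB'
        · exact Or.inl (chkA_true _ h2 B List.mem_cons_self)
        · -- `B` is later: by induction `A` is in its list of earlier codes
          rcases ih (A :: pre) h3 B hB' A (Or.inl List.mem_cons_self) with h4 | h4
          · exact Or.inr ⟨h4, hB⟩
          · exact Or.inl h4.1
    · rcases ih (C :: pre) h3 A hA' B (by
        rcases hB with hB | hB
        · exact Or.inl (List.mem_cons_of_mem _ hB)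
        · rcases List.mem_cons.1 hB with rfl | hB'
          · exact Or.inl List.mem_cons_self
          · exact Or.inr hB') with h4 | h4
      · exact Or.inl h4
      · exact Or.inr ⟨h4.1, List.mem_cons_of_mem _ h4.2⟩

theorem chk_pair {A B : Code} (hA : A ∈ codes) (hB : B ∈ codes) :
    chkPair tbl A B = true ∨ chkPair tbl B A = true := by
  rcases chkL_true codes [] chk A hA B (Or.inr hB) with h | h
  · exact Or.inl h
  · exact Or.inr h.1

theorem codes_ok {C : Code} (hC : C ∈ codes) : C.length ≤ 5 ∧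
    ∀ k (h : k < C.length), (C[k]).1 < k + 3 ∧ (C[k]).2 < k + 3 := by
  have h1 := codesOK_true
  unfold codesOK at h1
  rw [List.all_eq_true] at h1
  have h2 := h1 C hC
  simp only [Bool.and_eq_true, List.all_eq_true, List.mem_range, decide_eq_true_eq] at h2
  obtain ⟨h3, h4⟩ := h2
  refine ⟨h3, ?_⟩
  intro k hk
  have h5 := h4 k hk
  rw [getD_eq C _ k hk] at h5
  exact h5

theorem csound_code {C : Code} (hC : C ∈ codes) : CSound C (adjOf C 3 base) := by
  obtain ⟨h1, h2⟩ := codes_ok hC
  have := csound_adjOf C [] 3 base rfl (by rw [List.length_nil]; omega) csound_base (by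
    intro k hk
    have := h2 k hk
    omega)
  simpa using this

/-- the vertex `t` has a closure in the list -/
def HasType (P : Par) (N t : ℕ) : Prop :=
  ∃ C ∈ codes, ∃ g : ℕ → ℕ, Emb P N C g ∧ g (C.length + 2) = t ∧
    ∀ i, i < C.length + 3 → g i ≤ t ∨ g i < 3

variable {V : Type*} {G : SimpleGraph V} {f : ℕ → V}

theorem type_step (hno : NoC8 G) (R : Real G P N f) {t a b : ℕ} (htN : t < N)
    (hpar : Par2 P t a b) (hab : a ≠ b) {A B : Code} {g h : ℕ → ℕ}
    (hA : A ∈ codes) (EA : Emb P N A g) (hga : g (A.length + 2) = a)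
    (hgt : ∀ i, i < A.length + 3 → g i < t) (EB : Emb P N B h) (hhb : h (B.length + 2) = b)
    (hht : ∀ i, i < B.length + 3 → h i < t) (hchk : chkPair tbl A B = true) : HasType P N t := by
  obtain ⟨d, hd, hbase⟩ := match_base EA EB
  have hm := chkPair_true hchk d hd
  have hlen : A.length ≤ 5 := (codes_ok hA).1
  obtain ⟨U', adj', q, g', r1, r2, r3, r4, r5, r6, r7, r8, r9⟩ :=
    merge_sound hno R EB hht (fin tbl (A.length + 2)) B [] rfl A (adjOf A 3 base) (A.length + 3) 3
      (perm d) g (csound_code hA) rfl EA hgt rfl (by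
        intro i hi
        obtain ⟨h1, h2⟩ := hbase i hi
        exact ⟨by omega, h2⟩) (by omega) hm
  have htop : g' (A.length + 2) = a := by rw [r4 _ (by omega), hga]
  rw [hhb] at r8
  have h1 : fin tbl (A.length + 2) U' adj' (U'.length + 3) q =
    orb (Nat.beq q (A.length + 2)) (orb (path6 adj' (U'.length + 3) (A.length + 2) q)
      (andb (Nat.ble (U'.length + 3) 15) (look tbl (List.append U' [(A.length + 2, q)])))) := rfl
  rw [h1] at r9
  have hpar' : Par2 P t (g' (A.length + 2)) (g' q) := by rw [htop, r8]; exact hpar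
  have hnot : ∀ i, i < U'.length + 3 → g' i ≠ t := fun i hi => (r3 i hi).ne
  rcases orb_true r9 with h2 | h2
  · exfalso
    have h3 := Nat.eq_of_beq_eq_true h2
    rw [h3, htop] at r8
    exact hab r8
  · rcases orb_true h2 with h3 | h3
    · exfalso
      have h4 := r2.no_path hno R r1 r6 (x := A.length + 2) (y := q) (by omega) r7 (by
        intro h5
        rw [← h5, htop] at r8
        exact hab r8) htN hpar' hnot
      rw [h3] at h4
      exact absurd h4 (by simp)
    · obtain ⟨_, h5⟩ := andb_true h3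
      have E2 := r2.snoc (x := A.length + 2) (y := q) (by omega) r7 htN hpar' hnot
      have h6 : look tbl (U' ++ [(A.length + 2, q)]) = true := h5
      obtain ⟨C, hC, g2, h7, h8, h9⟩ := E2.table h6
      have hl : (U' ++ [(A.length + 2, q)]).length = U'.length + 1 := by simp
      refine ⟨C, hC, g2, h7, ?_, ?_⟩
      · rw [h8, hl]
        show Function.update g' (U'.length + 3) t (U'.length + 3) = t
        exact Function.update_self _ _ _
      · intro i hi
        obtain ⟨j, hj, h10⟩ := h9 i hi
        rw [h10]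
        left
        by_cases hjt : j = U'.length + 3
        · rw [hjt, Function.update_self]
        · rw [Function.update_of_ne hjt]
          exact (r3 j (by omega)).le

theorem has_type (hno : NoC8 G) (R : Real G P N f) : ∀ t, t < N → HasType P N t := by
  intro t
  induction t using Nat.strong_induction_on with
  | _ t ih =>
    intro htN
    by_cases ht3 : t < 3
    · -- base vertices
      have hN : 3 ≤ N := R.m3
      have hnil : ([] : Code) ∈ codes := by decide
      have key : ∀ g : ℕ → ℕ, (∀ i, i < 3 → g i < 3) → (∀ i j, i < 3 → j < 3 → g i = g j → i = j) →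
          g 2 = t → HasType P N t := by
        intro g h1 h2 h3
        refine ⟨[], hnil, g, ⟨?_, ?_, h1, ?_⟩, h3, fun i hi => Or.inr (h1 i (by simpa using hi))⟩
        · intro i hi
          have := h1 i (by simpa using hi)
          omega
        · intro i j hi hj hij
          exact h2 i j (by simpa using hi) (by simpa using hj) hij
        · intro k hk
          simp at hk
      refine key (fun i => (i + t + 1) % 3) ?_ ?_ ?_
      · intro i hi; exact Nat.mod_lt _ (by omega)
      · intro i j hi hj hij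
        omega
      · show (2 + t + 1) % 3 = t
        omega
    · push Not at ht3
      have hp := P.hp t ht3
      have hq := P.hq t ht3
      have hpq := P.hpq t ht3
      obtain ⟨A, hA, g, EA, g1, g2⟩ := ih (P.p t) hp (by omega)
      obtain ⟨B, hB, h, EB, h1, h2⟩ := ih (P.q t) hq (by omega)
      have hgt : ∀ i, i < A.length + 3 → g i < t := by
        intro i hi
        rcases g2 i hi with h3 | h3 <;> omega
      have hht : ∀ i, i < B.length + 3 → h i < t := by
        intro i hi
        rcases h2 i hi with h3 | h3 <;> omega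
      rcases chk_pair hA hB with h3 | h3
      · exact type_step hno R htN ⟨ht3, Or.inl ⟨rfl, rfl⟩⟩ hpq hA EA g1 hgt EB h1 hht h3
      · exact type_step hno R htN ⟨ht3, Or.inr ⟨rfl, rfl⟩⟩ hpq.symm hB EB h1 hht EA g1
          hgt h3

end Pool.Agent.C8
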