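import Pool.Agent.Lib_helper45.C8.Defs

/-!
# The closures without 8-cycles, and the table of the unions
-/

set_option autoImplicit false

namespace Pool.Agent.C8

/-- the 71 closures without 8-cycles, the small ones first -/
def codes : List Code := [
  [], [(0, 1)], [(0, 1), (0, 3)], [(0, 1), (2, 3)], [(0, 1), (0, 1), (3, 4)],
  [(0, 1), (0, 2), (3, 4)], [(0, 1), (0, 3), (0, 4)], [(0, 1), (0, 3), (1, 4)],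
  [(0, 1), (0, 3), (2, 4)], [(0, 1), (0, 3), (3, 4)], [(0, 1), (2, 3), (0, 4)],
  [(0, 1), (2, 3), (2, 4)], [(0, 1), (2, 3), (3, 4)], [(0, 1), (0, 1), (0, 3), (4, 5)],
  [(0, 1), (0, 1), (2, 3), (4, 5)], [(0, 1), (0, 1), (3, 4), (0, 5)],
  [(0, 1), (0, 1), (3, 4), (2, 5)], [(0, 1), (0, 1), (3, 4), (3, 5)],
  [(0, 1), (0, 2), (0, 3), (4, 5)], [(0, 1), (0, 2), (1, 3), (4, 5)],
  [(0, 1), (0, 2), (1, 4), (3, 5)], [(0, 1), (0, 2), (3, 4), (0, 5)],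
  [(0, 1), (0, 2), (3, 4), (1, 5)], [(0, 1), (0, 2), (3, 4), (3, 5)],
  [(0, 1), (0, 3), (0, 3), (4, 5)], [(0, 1), (0, 3), (0, 4), (0, 5)],
  [(0, 1), (0, 3), (0, 4), (1, 5)], [(0, 1), (0, 3), (0, 4), (2, 5)],
  [(0, 1), (0, 3), (0, 4), (3, 5)], [(0, 1), (0, 3), (0, 4), (4, 5)],
  [(0, 1), (0, 3), (1, 3), (4, 5)], [(0, 1), (0, 3), (1, 4), (0, 5)],
  [(0, 1), (0, 3), (1, 4), (1, 5)], [(0, 1), (0, 3), (1, 4), (2, 5)],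
  [(0, 1), (0, 3), (1, 4), (3, 5)], [(0, 1), (0, 3), (1, 4), (4, 5)],
  [(0, 1), (0, 3), (2, 3), (4, 5)], [(0, 1), (0, 3), (2, 4), (0, 5)],
  [(0, 1), (0, 3), (2, 4), (1, 5)], [(0, 1), (0, 3), (2, 4), (2, 5)],
  [(0, 1), (0, 3), (2, 4), (3, 5)], [(0, 1), (0, 3), (2, 4), (4, 5)],
  [(0, 1), (0, 3), (3, 4), (0, 5)], [(0, 1), (0, 3), (3, 4), (1, 5)],
  [(0, 1), (0, 3), (3, 4), (2, 5)], [(0, 1), (0, 3), (3, 4), (3, 5)],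
  [(0, 1), (0, 3), (3, 4), (4, 5)], [(0, 1), (2, 3), (0, 4), (0, 5)],
  [(0, 1), (2, 3), (0, 4), (1, 5)], [(0, 1), (2, 3), (0, 4), (2, 5)],
  [(0, 1), (2, 3), (0, 4), (3, 5)], [(0, 1), (2, 3), (0, 4), (4, 5)],
  [(0, 1), (2, 3), (2, 3), (4, 5)], [(0, 1), (2, 3), (2, 4), (0, 5)],
  [(0, 1), (2, 3), (2, 4), (2, 5)], [(0, 1), (2, 3), (2, 4), (3, 5)],
  [(0, 1), (2, 3), (2, 4), (4, 5)], [(0, 1), (2, 3), (3, 4), (0, 5)],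
  [(0, 1), (2, 3), (3, 4), (2, 5)], [(0, 1), (2, 3), (3, 4), (3, 5)],
  [(0, 1), (2, 3), (3, 4), (4, 5)], [(0, 1), (0, 1), (0, 1), (3, 4), (5, 6)],
  [(0, 1), (0, 1), (0, 3), (4, 5), (0, 6)], [(0, 1), (0, 1), (0, 3), (4, 5), (1, 6)],
  [(0, 1), (0, 1), (3, 4), (0, 5), (0, 6)], [(0, 1), (0, 1), (3, 4), (0, 5), (1, 6)],
  [(0, 1), (0, 1), (3, 4), (0, 5), (5, 6)], [(0, 1), (0, 3), (0, 3), (4, 5), (0, 6)],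
  [(0, 1), (0, 3), (0, 3), (4, 5), (3, 6)], [(0, 1), (2, 3), (2, 3), (4, 5), (2, 6)],
  [(0, 1), (2, 3), (2, 3), (4, 5), (3, 6)]]

/-- the unions with a new vertex, the isomorphic closures and the isomorphisms -/
def tbl : Tbl := [
  ([(2, 1)], [(0, 1)], [1, 2, 0, 3]), ([(2, 0)], [(0, 1)], [0, 2, 1, 3]),
  ([(0, 1), (3, 2)], [(0, 1), (2, 3)], [0, 1, 2, 3, 4]),
  ([(0, 1), (3, 1)], [(0, 1), (0, 3)], [1, 0, 2, 3, 4]),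
  ([(0, 1), (3, 0)], [(0, 1), (0, 3)], [0, 1, 2, 3, 4]),
  ([(0, 1), (0, 1), (3, 4)], [(0, 1), (0, 1), (3, 4)], [0, 1, 2, 3, 4, 5]),
  ([(0, 1), (0, 2), (3, 4)], [(0, 1), (0, 2), (3, 4)], [0, 1, 2, 3, 4, 5]),
  ([(0, 1), (1, 2), (3, 4)], [(0, 1), (0, 2), (3, 4)], [1, 0, 2, 3, 4, 5]),
  ([(0, 1), (1, 0), (3, 4)], [(0, 1), (0, 1), (3, 4)], [0, 1, 2, 3, 4, 5]),
  ([(0, 1), (2, 0), (3, 4)], [(0, 1), (0, 2), (3, 4)], [0, 1, 2, 3, 4, 5]),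
  ([(0, 1), (2, 1), (3, 4)], [(0, 1), (0, 2), (3, 4)], [1, 0, 2, 3, 4, 5]),
  ([(0, 1), (0, 3), (4, 2)], [(0, 1), (0, 3), (2, 4)], [0, 1, 2, 3, 4, 5]),
  ([(0, 1), (0, 3), (4, 1)], [(0, 1), (0, 3), (1, 4)], [0, 1, 2, 3, 4, 5]),
  ([(0, 1), (0, 3), (4, 0)], [(0, 1), (0, 3), (0, 4)], [0, 1, 2, 3, 4, 5]),
  ([(0, 1), (0, 3), (4, 3)], [(0, 1), (0, 3), (3, 4)], [0, 1, 2, 3, 4, 5]),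
  ([(0, 1), (0, 3), (0, 1), (4, 5)], [(0, 1), (0, 1), (0, 3), (4, 5)], [0, 1, 2, 3, 5, 4, 6]),
  ([(0, 1), (0, 3), (0, 2), (4, 5)], [(0, 1), (0, 2), (0, 3), (4, 5)], [0, 1, 2, 3, 5, 4, 6]),
  ([(0, 1), (0, 3), (1, 2), (4, 5)], [(0, 1), (0, 2), (1, 3), (4, 5)], [1, 0, 2, 3, 5, 4, 6]),
  ([(0, 1), (0, 3), (1, 0), (4, 5)], [(0, 1), (0, 1), (0, 3), (4, 5)], [0, 1, 2, 3, 5, 4, 6]),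
  ([(0, 1), (0, 3), (2, 0), (4, 5)], [(0, 1), (0, 2), (0, 3), (4, 5)], [0, 1, 2, 3, 5, 4, 6]),
  ([(0, 1), (0, 3), (2, 1), (4, 5)], [(0, 1), (0, 2), (1, 3), (4, 5)], [1, 0, 2, 3, 5, 4, 6]),
  ([(0, 1), (0, 3), (0, 3), (4, 5)], [(0, 1), (0, 3), (0, 3), (4, 5)], [0, 1, 2, 3, 4, 5, 6]),
  ([(0, 1), (0, 3), (1, 3), (4, 5)], [(0, 1), (0, 3), (1, 3), (4, 5)], [0, 1, 2, 3, 4, 5, 6]),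
  ([(0, 1), (2, 3), (4, 2)], [(0, 1), (2, 3), (2, 4)], [0, 1, 2, 3, 4, 5]),
  ([(0, 1), (2, 3), (4, 1)], [(0, 1), (2, 3), (0, 4)], [1, 0, 2, 3, 4, 5]),
  ([(0, 1), (2, 3), (4, 0)], [(0, 1), (2, 3), (0, 4)], [0, 1, 2, 3, 4, 5]),
  ([(0, 1), (2, 3), (4, 3)], [(0, 1), (2, 3), (3, 4)], [0, 1, 2, 3, 4, 5]),
  ([(0, 1), (2, 3), (0, 1), (4, 5)], [(0, 1), (0, 1), (2, 3), (4, 5)], [0, 1, 2, 3, 5, 4, 6]),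
  ([(0, 1), (2, 3), (0, 2), (4, 5)], [(0, 1), (0, 2), (1, 4), (3, 5)], [0, 2, 1, 5, 3, 4, 6]),
  ([(0, 1), (2, 3), (1, 2), (4, 5)], [(0, 1), (0, 2), (1, 4), (3, 5)], [1, 2, 0, 5, 3, 4, 6]),
  ([(0, 1), (2, 3), (1, 0), (4, 5)], [(0, 1), (0, 1), (2, 3), (4, 5)], [0, 1, 2, 3, 5, 4, 6]),
  ([(0, 1), (2, 3), (2, 0), (4, 5)], [(0, 1), (0, 2), (1, 4), (3, 5)], [0, 2, 1, 5, 3, 4, 6]),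
  ([(0, 1), (2, 3), (2, 1), (4, 5)], [(0, 1), (0, 2), (1, 4), (3, 5)], [1, 2, 0, 5, 3, 4, 6]),
  ([(0, 1), (2, 3), (0, 3), (4, 5)], [(0, 1), (0, 3), (2, 3), (4, 5)], [0, 1, 2, 3, 5, 4, 6]),
  ([(0, 1), (2, 3), (1, 3), (4, 5)], [(0, 1), (0, 3), (2, 3), (4, 5)], [1, 0, 2, 3, 5, 4, 6]),
  ([(0, 1), (2, 3), (2, 3), (4, 5)], [(0, 1), (2, 3), (2, 3), (4, 5)], [0, 1, 2, 3, 4, 5, 6]),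
  ([(0, 1), (0, 1), (3, 4), (5, 2)], [(0, 1), (0, 1), (3, 4), (2, 5)], [0, 1, 2, 3, 4, 5, 6]),
  ([(0, 1), (0, 1), (3, 4), (5, 1)], [(0, 1), (0, 1), (3, 4), (0, 5)], [1, 0, 2, 3, 4, 5, 6]),
  ([(0, 1), (0, 1), (3, 4), (5, 0)], [(0, 1), (0, 1), (3, 4), (0, 5)], [0, 1, 2, 3, 4, 5, 6]),
  ([(0, 1), (0, 1), (3, 4), (5, 3)], [(0, 1), (0, 1), (3, 4), (3, 5)], [0, 1, 2, 3, 4, 5, 6]),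
  ([(0, 1), (0, 1), (3, 4), (5, 4)], [(0, 1), (0, 1), (3, 4), (3, 5)], [0, 1, 2, 4, 3, 5, 6]),
  ([(0, 1), (0, 1), (3, 4), (0, 1), (5, 6)], [(0, 1), (0, 1), (0, 1), (3, 4), (5, 6)], [0, 1, 2, 3, 4, 6, 5, 7]),
  ([(0, 1), (0, 1), (3, 4), (1, 0), (5, 6)], [(0, 1), (0, 1), (0, 1), (3, 4), (5, 6)], [0, 1, 2, 3, 4, 6, 5, 7]),
  ([(0, 1), (0, 2), (3, 4), (5, 2)], [(0, 1), (0, 2), (3, 4), (1, 5)], [0, 2, 1, 4, 3, 5, 6]),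
  ([(0, 1), (0, 2), (3, 4), (5, 1)], [(0, 1), (0, 2), (3, 4), (1, 5)], [0, 1, 2, 3, 4, 5, 6]),
  ([(0, 1), (0, 2), (3, 4), (5, 0)], [(0, 1), (0, 2), (3, 4), (0, 5)], [0, 1, 2, 3, 4, 5, 6]),
  ([(0, 1), (0, 2), (3, 4), (5, 3)], [(0, 1), (0, 2), (3, 4), (3, 5)], [0, 1, 2, 3, 4, 5, 6]),
  ([(0, 1), (0, 2), (3, 4), (5, 4)], [(0, 1), (0, 2), (3, 4), (3, 5)], [0, 2, 1, 4, 3, 5, 6]),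
  ([(0, 1), (0, 3), (0, 4), (5, 2)], [(0, 1), (0, 3), (0, 4), (2, 5)], [0, 1, 2, 3, 4, 5, 6]),
  ([(0, 1), (0, 3), (0, 4), (5, 1)], [(0, 1), (0, 3), (0, 4), (1, 5)], [0, 1, 2, 3, 4, 5, 6]),
  ([(0, 1), (0, 3), (0, 4), (5, 0)], [(0, 1), (0, 3), (0, 4), (0, 5)], [0, 1, 2, 3, 4, 5, 6]),
  ([(0, 1), (0, 3), (0, 4), (5, 3)], [(0, 1), (0, 3), (0, 4), (3, 5)], [0, 1, 2, 3, 4, 5, 6]),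
  ([(0, 1), (0, 3), (0, 4), (5, 4)], [(0, 1), (0, 3), (0, 4), (4, 5)], [0, 1, 2, 3, 4, 5, 6]),
  ([(0, 1), (0, 3), (1, 4), (5, 2)], [(0, 1), (0, 3), (1, 4), (2, 5)], [0, 1, 2, 3, 4, 5, 6]),
  ([(0, 1), (0, 3), (1, 4), (5, 1)], [(0, 1), (0, 3), (1, 4), (1, 5)], [0, 1, 2, 3, 4, 5, 6]),
  ([(0, 1), (0, 3), (1, 4), (5, 0)], [(0, 1), (0, 3), (1, 4), (0, 5)], [0, 1, 2, 3, 4, 5, 6]),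
  ([(0, 1), (0, 3), (1, 4), (5, 3)], [(0, 1), (0, 3), (1, 4), (3, 5)], [0, 1, 2, 3, 4, 5, 6]),
  ([(0, 1), (0, 3), (1, 4), (5, 4)], [(0, 1), (0, 3), (1, 4), (4, 5)], [0, 1, 2, 3, 4, 5, 6]),
  ([(0, 1), (0, 3), (2, 4), (5, 2)], [(0, 1), (0, 3), (2, 4), (2, 5)], [0, 1, 2, 3, 4, 5, 6]),
  ([(0, 1), (0, 3), (2, 4), (5, 1)], [(0, 1), (0, 3), (2, 4), (1, 5)], [0, 1, 2, 3, 4, 5, 6]),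
  ([(0, 1), (0, 3), (2, 4), (5, 0)], [(0, 1), (0, 3), (2, 4), (0, 5)], [0, 1, 2, 3, 4, 5, 6]),
  ([(0, 1), (0, 3), (2, 4), (5, 3)], [(0, 1), (0, 3), (2, 4), (3, 5)], [0, 1, 2, 3, 4, 5, 6]),
  ([(0, 1), (0, 3), (2, 4), (5, 4)], [(0, 1), (0, 3), (2, 4), (4, 5)], [0, 1, 2, 3, 4, 5, 6]),
  ([(0, 1), (0, 3), (3, 4), (5, 2)], [(0, 1), (0, 3), (3, 4), (2, 5)], [0, 1, 2, 3, 4, 5, 6]),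
  ([(0, 1), (0, 3), (3, 4), (5, 1)], [(0, 1), (0, 3), (3, 4), (1, 5)], [0, 1, 2, 3, 4, 5, 6]),
  ([(0, 1), (0, 3), (3, 4), (5, 0)], [(0, 1), (0, 3), (3, 4), (0, 5)], [0, 1, 2, 3, 4, 5, 6]),
  ([(0, 1), (0, 3), (3, 4), (5, 3)], [(0, 1), (0, 3), (3, 4), (3, 5)], [0, 1, 2, 3, 4, 5, 6]),
  ([(0, 1), (0, 3), (3, 4), (5, 4)], [(0, 1), (0, 3), (3, 4), (4, 5)], [0, 1, 2, 3, 4, 5, 6]),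
  ([(0, 1), (2, 3), (0, 4), (5, 2)], [(0, 1), (2, 3), (0, 4), (2, 5)], [0, 1, 2, 3, 4, 5, 6]),
  ([(0, 1), (2, 3), (0, 4), (5, 1)], [(0, 1), (2, 3), (0, 4), (1, 5)], [0, 1, 2, 3, 4, 5, 6]),
  ([(0, 1), (2, 3), (0, 4), (5, 0)], [(0, 1), (2, 3), (0, 4), (0, 5)], [0, 1, 2, 3, 4, 5, 6]),
  ([(0, 1), (2, 3), (0, 4), (5, 3)], [(0, 1), (2, 3), (0, 4), (3, 5)], [0, 1, 2, 3, 4, 5, 6]),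
  ([(0, 1), (2, 3), (0, 4), (5, 4)], [(0, 1), (2, 3), (0, 4), (4, 5)], [0, 1, 2, 3, 4, 5, 6]),
  ([(0, 1), (2, 3), (2, 4), (5, 2)], [(0, 1), (2, 3), (2, 4), (2, 5)], [0, 1, 2, 3, 4, 5, 6]),
  ([(0, 1), (2, 3), (2, 4), (5, 1)], [(0, 1), (2, 3), (2, 4), (0, 5)], [1, 0, 2, 3, 4, 5, 6]),
  ([(0, 1), (2, 3), (2, 4), (5, 0)], [(0, 1), (2, 3), (2, 4), (0, 5)], [0, 1, 2, 3, 4, 5, 6]),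
  ([(0, 1), (2, 3), (2, 4), (5, 3)], [(0, 1), (2, 3), (2, 4), (3, 5)], [0, 1, 2, 3, 4, 5, 6]),
  ([(0, 1), (2, 3), (2, 4), (5, 4)], [(0, 1), (2, 3), (2, 4), (4, 5)], [0, 1, 2, 3, 4, 5, 6]),
  ([(0, 1), (2, 3), (3, 4), (5, 2)], [(0, 1), (2, 3), (3, 4), (2, 5)], [0, 1, 2, 3, 4, 5, 6]),
  ([(0, 1), (2, 3), (3, 4), (5, 1)], [(0, 1), (2, 3), (3, 4), (0, 5)], [1, 0, 2, 3, 4, 5, 6]),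
  ([(0, 1), (2, 3), (3, 4), (5, 0)], [(0, 1), (2, 3), (3, 4), (0, 5)], [0, 1, 2, 3, 4, 5, 6]),
  ([(0, 1), (2, 3), (3, 4), (5, 3)], [(0, 1), (2, 3), (3, 4), (3, 5)], [0, 1, 2, 3, 4, 5, 6]),
  ([(0, 1), (2, 3), (3, 4), (5, 4)], [(0, 1), (2, 3), (3, 4), (4, 5)], [0, 1, 2, 3, 4, 5, 6]),
  ([(0, 1), (0, 1), (0, 3), (4, 5), (6, 1)], [(0, 1), (0, 1), (0, 3), (4, 5), (1, 6)], [0, 1, 2, 3, 4, 5, 6, 7]),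
  ([(0, 1), (0, 1), (0, 3), (4, 5), (6, 0)], [(0, 1), (0, 1), (0, 3), (4, 5), (0, 6)], [0, 1, 2, 3, 4, 5, 6, 7]),
  ([(0, 1), (0, 1), (3, 4), (0, 5), (6, 1)], [(0, 1), (0, 1), (3, 4), (0, 5), (1, 6)], [0, 1, 2, 3, 4, 5, 6, 7]),
  ([(0, 1), (0, 1), (3, 4), (0, 5), (6, 0)], [(0, 1), (0, 1), (3, 4), (0, 5), (0, 6)], [0, 1, 2, 3, 4, 5, 6, 7]),
  ([(0, 1), (0, 1), (3, 4), (0, 5), (6, 5)], [(0, 1), (0, 1), (3, 4), (0, 5), (5, 6)], [0, 1, 2, 3, 4, 5, 6, 7]),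
  ([(0, 1), (0, 3), (0, 3), (4, 5), (6, 0)], [(0, 1), (0, 3), (0, 3), (4, 5), (0, 6)], [0, 1, 2, 3, 4, 5, 6, 7]),
  ([(0, 1), (0, 3), (0, 3), (4, 5), (6, 3)], [(0, 1), (0, 3), (0, 3), (4, 5), (3, 6)], [0, 1, 2, 3, 4, 5, 6, 7]),
  ([(0, 1), (2, 3), (2, 3), (4, 5), (6, 2)], [(0, 1), (2, 3), (2, 3), (4, 5), (2, 6)], [0, 1, 2, 3, 4, 5, 6, 7]),
  ([(0, 1), (2, 3), (2, 3), (4, 5), (6, 3)], [(0, 1), (2, 3), (2, 3), (4, 5), (3, 6)], [0, 1, 2, 3, 4, 5, 6, 7])]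

end Pool.Agent.C8
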