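import Mathlib

/-!
# Search functions for closures without 8-cycles (kernel friendly)

A code `[(x₃, y₃), (x₄, y₄), …]` describes the graph on `0, 1, 2, 3, …` in which `0, 1, 2` is a
triangle and every `i ≥ 3` is joined to the two earlier vertices `x_i`, `y_i`.  Adjacency matrices
are natural numbers with rows of 16 bits.
-/

set_option autoImplicit false

namespace Pool.Agent.C8

abbrev Code : Type := List (ℕ × ℕ)

def tb (m i : ℕ) : Bool := Nat.beq (Nat.land (Nat.shiftRight m i) 1) 1

def orb (a b : Bool) : Bool := Bool.rec (motive := fun _ => Bool) b true a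

def andb (a b : Bool) : Bool := Bool.rec (motive := fun _ => Bool) false b a

/-- some bit `z` of `m` satisfies `p z` -/
def anyBit (p : ℕ → Bool) (fuel : ℕ) : ℕ → Bool :=
  Nat.rec (motive := fun _ => ℕ → Bool) (fun _ => false) (fun _ ih m =>
    Bool.rec (motive := fun _ => Bool)
      (orb (p (Nat.log2 m)) (ih (Nat.xor m (Nat.shiftLeft 1 (Nat.log2 m))))) false
      (Nat.beq m 0)) fuel

/-- is there a path with `L + 1` edges from `x` to `y` whose inner vertices are in `avail`? -/
def pathc (adj y : ℕ) (L : ℕ) : ℕ → ℕ → Bool :=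
  Nat.rec (motive := fun _ => ℕ → ℕ → Bool) (fun x _ => tb adj (Nat.add (Nat.mul 16 x) y))
    (fun _ ih x avail => anyBit (fun z => ih z (Nat.xor avail (Nat.shiftLeft 1 z))) 16
      (Nat.land (Nat.shiftRight adj (Nat.mul 16 x)) avail)) L

/-- is there a path with 6 edges from `x` to `y`? -/
def path6 (adj n x y : ℕ) : Bool :=
  pathc adj y 5 x (Nat.xor (Nat.xor (Nat.sub (Nat.shiftLeft 1 n) 1) (Nat.shiftLeft 1 x))
    (Nat.shiftLeft 1 y))

/-- the matrix after adding the vertex `n` with the neighbours `x`, `y` -/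
def step (a n x y : ℕ) : ℕ :=
  Nat.lor (Nat.lor (Nat.lor (Nat.lor a (Nat.shiftLeft 1 (Nat.add (Nat.mul 16 n) x)))
    (Nat.shiftLeft 1 (Nat.add (Nat.mul 16 n) y))) (Nat.shiftLeft 1 (Nat.add (Nat.mul 16 x) n)))
    (Nat.shiftLeft 1 (Nat.add (Nat.mul 16 y) n))

/-- the triangle `0, 1, 2` -/
def base : ℕ := 12885229574

def adjOf (U : Code) : ℕ → ℕ → ℕ := List.rec (motive := fun _ => ℕ → ℕ → ℕ)
  (fun _ a => a) (fun p _ ih n a => ih (Nat.succ n) (step a n p.1 p.2)) U

def samePair (p : ℕ × ℕ) (x y : ℕ) : Bool :=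
  orb (andb (Nat.beq p.1 x) (Nat.beq p.2 y)) (andb (Nat.beq p.1 y) (Nat.beq p.2 x))

/-- all vertices `a` with the parents `x`, `y` (the first vertex of `U` has the number `a₀`)
satisfy `p` -/
def allSame (p : ℕ → Bool) (x y : ℕ) (U : Code) : ℕ → Bool :=
  List.rec (motive := fun _ => ℕ → Bool) (fun _ => true)
    (fun q _ ih a => andb (Bool.rec (motive := fun _ => Bool) true (p a) (samePair q x y))
      (ih (Nat.succ a))) U

def upd (φ : ℕ → ℕ) (b a : ℕ) : ℕ → ℕ := fun i =>
  Bool.rec (motive := fun _ => ℕ) (φ i) a (Nat.beq i b)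

/-- The vertices of the second closure (rest `B`, next vertex `b`) are identified with old
vertices or added to `U`; `φ` is the identification; at the end `fin` is tested. -/
def merge (fin : Code → ℕ → ℕ → ℕ → Bool) (B : Code) :
    Code → ℕ → ℕ → ℕ → (ℕ → ℕ) → Bool :=
  List.rec (motive := fun _ => Code → ℕ → ℕ → ℕ → (ℕ → ℕ) → Bool)
    (fun U adj n b φ => fin U adj n (φ (Nat.pred b)))
    (fun p _ ih U adj n b φ =>
      andb (allSame (fun a => ih U adj n (Nat.succ b) (upd φ b a)) (φ p.1) (φ p.2) U 3)
        (orb (path6 adj n (φ p.1) (φ p.2))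
          (andb (Nat.ble n 15) (ih (List.append U [(φ p.1, φ p.2)])
            (step adj n (φ p.1) (φ p.2)) (Nat.succ n) (Nat.succ b) (upd φ b n))))) B

/-- the six permutations of `0, 1, 2` -/
def perm (c : ℕ) : ℕ → ℕ := fun j =>
  Nat.mod (Nat.add (Nat.mul (Nat.succ (Nat.mod c 2)) j) (Nat.div c 2)) 3

def eqPair (p q : ℕ × ℕ) : Bool := andb (Nat.beq p.1 q.1) (Nat.beq p.2 q.2)

def eqCode (U : Code) : Code → Bool :=
  List.rec (motive := fun _ => Code → Bool)
    (fun W => List.rec (motive := fun _ => Bool) true (fun _ _ _ => false) W)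
    (fun p _ ih W => List.rec (motive := fun _ => Bool) false (fun q W' _ =>
      andb (eqPair p q) (ih W')) W) U

/-- a table: codes with the number of an isomorphic code and the isomorphism -/
abbrev Tbl : Type := List (Code × Code × List ℕ)

def look (T : Tbl) (W : Code) : Bool :=
  List.rec (motive := fun _ => Bool) false (fun e _ ih => orb (eqCode e.1 W) ih) T

/-- the final test: the new vertex has the parents `top` and `q` -/
def fin (T : Tbl) (top : ℕ) (U : Code) (adj n q : ℕ) : Bool :=
  orb (Nat.beq q top) (orb (path6 adj n top q) (andb (Nat.ble n 15)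
    (look T (List.append U [(top, q)]))))

/-- all unions of `A` and `B` -/
def chkPair (T : Tbl) (A B : Code) : Bool :=
  Nat.rec (motive := fun _ => Bool) true (fun c ih => andb
    (merge (fin T (Nat.add (List.length A) 2)) B A (adjOf A 3 base) (Nat.add (List.length A) 3) 3
      (perm c)) ih) 6

/-- `A` against all codes of the list -/
def chkA (T : Tbl) (A : Code) (L : List Code) : Bool :=
  List.rec (motive := fun _ => Bool) true (fun B _ ih => andb (chkPair T A B) ih) L

/-- each code of `L` against itself and the codes before it (in `pre`, and in `L`) -/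
def chkL (T : Tbl) (L : List Code) : List Code → Bool :=
  List.rec (motive := fun _ => List Code → Bool) (fun _ => true)
    (fun A _ ih pre => andb (chkA T A (A :: pre)) (ih (A :: pre))) L

end Pool.Agent.C8
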