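import Pool.Agent.Lib_helper45.C8.Closure

/-!
# The last check: critical graphs with 8 or 9 vertices
-/

set_option autoImplicit false

namespace Pool.Agent.C8

open SimpleGraph Pool.Agent.Cyc27

/-- are there three bits? -/
def has3 (m : ℕ) : Bool :=
  anyBit (fun a => anyBit (fun b => anyBit (fun _ => true) 16
    (Nat.xor (Nat.xor m (Nat.shiftLeft 1 a)) (Nat.shiftLeft 1 b))) 16
      (Nat.xor m (Nat.shiftLeft 1 a))) 16 m

/-- has the vertex `i` three neighbours in `S`? -/
def ok3 (adj S i : ℕ) : Bool := has3 (Nat.land (Nat.shiftRight adj (Nat.mul 16 i)) S)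

/-- each vertex of `S` has three neighbours in `S` (the vertices `i < n`) -/
def allOk (adj S n : ℕ) : Bool :=
  Nat.rec (motive := fun _ => Bool) true (fun i ih =>
    andb (Bool.rec (motive := fun _ => Bool) true (ok3 adj S i) (tb S i)) ih) n

/-- remove the vertices with less than three neighbours -/
def peel1 (adj : ℕ) (n : ℕ) : ℕ → ℕ :=
  Nat.rec (motive := fun _ => ℕ → ℕ) (fun S => S) (fun i ih S =>
    ih (Bool.rec (motive := fun _ => ℕ) S
      (Bool.rec (motive := fun _ => ℕ) (Nat.xor S (Nat.shiftLeft 1 i)) S (ok3 adj S i)) (tb S i))) n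

def peel (adj n : ℕ) (k : ℕ) : ℕ → ℕ :=
  Nat.rec (motive := fun _ => ℕ → ℕ) (fun S => S) (fun _ ih S => ih (peel1 adj n S)) k

/-- `S` is a nonempty proper subset with minimum degree 3 -/
def good (adj n S : ℕ) : Bool :=
  andb (Bool.rec (motive := fun _ => Bool) true false (Nat.beq S 0))
    (andb (Nat.blt S (Nat.sub (Nat.shiftLeft 1 n) 1)) (allOk adj S n))

/-- is there a good subset avoiding some vertex `u < k`? -/
def hasCore (adj n : ℕ) (k : ℕ) : Bool :=
  Nat.rec (motive := fun _ => Bool) false (fun u ih =>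
    orb (good adj n (peel adj n n (Nat.xor (Nat.sub (Nat.shiftLeft 1 n) 1) (Nat.shiftLeft 1 u)))) ih) k

/-- the graph with the last vertex `m`, adjacent to `m - 1`, `x`, `y` -/
def addv (adj m x y : ℕ) : ℕ := step (step adj m x y) m (Nat.pred m) (Nat.pred m)

def fin1 (adj m x y : ℕ) : Bool :=
  orb (path6 adj m x y) (orb (path6 adj m x (Nat.pred m)) (orb (path6 adj m y (Nat.pred m))
    (hasCore (addv adj m x y) (Nat.succ m) (Nat.succ m))))

/-- all `x < y` -/
def finx (adj m y k : ℕ) : Bool :=
  Nat.rec (motive := fun _ => Bool) true (fun x ih => andb (fin1 adj m x y) ih) k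

/-- all `y < k` -/
def finy (adj m k : ℕ) : Bool :=
  Nat.rec (motive := fun _ => Bool) true (fun y ih => andb (finx adj m y y) ih) k

def finC (C : Code) : Bool :=
  orb (Nat.blt (List.length C) 4)
    (finy (adjOf C 3 base) (Nat.add (List.length C) 3) (Nat.add (List.length C) 2))

def finAll (L : List Code) : Bool :=
  List.rec (motive := fun _ => Bool) true (fun C _ ih => andb (finC C) ih) L

theorem finAll_true : finAll codes = true := by decide +kernel

theorem finAll_mem (L : List Code) (h : finAll L = true) : ∀ C ∈ L, finC C = true := by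
  induction L with
  | nil => intro C hC; exact absurd hC (by simp)
  | cons B L ih =>
    intro C hC
    have h1 : andb (finC B) (finAll L) = true := h
    obtain ⟨h2, h3⟩ := andb_true h1
    rcases List.mem_cons.1 hC with rfl | hC
    · exact h2
    · exact ih h3 C hC

theorem finy_true {adj m k : ℕ} (h : finy adj m k = true) : ∀ y, y < k → finx adj m y y = true := by
  induction k with
  | zero => intro y hy; omega
  | succ k ih =>
    intro y hy
    obtain ⟨h1, h2⟩ := andb_true h
    by_cases hyk : y = k
    · rw [hyk]; exact h1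
    · exact ih h2 y (by omega)

theorem finx_true {adj m y k : ℕ} (h : finx adj m y k = true) :
    ∀ x, x < k → fin1 adj m x y = true := by
  induction k with
  | zero => intro x hx; omega
  | succ k ih =>
    intro x hx
    obtain ⟨h1, h2⟩ := andb_true h
    by_cases hxk : x = k
    · rw [hxk]; exact h1
    · exact ih h2 x (by omega)

theorem finC_true {C : Code} (hC : C ∈ codes) (h4 : 4 ≤ C.length) {x y : ℕ} (hxy : x < y)
    (hy : y < C.length + 2) : fin1 (adjOf C 3 base) (C.length + 3) x y = true := by
  rcases orb_true (finAll_mem codes finAll_true C hC) with h1 | h1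
  · exfalso
    have : C.length < 4 := by
      have h2 : Nat.ble (Nat.succ (List.length C)) 4 = true := h1
      have h3 := Nat.le_of_ble_eq_true h2
      omega
    omega
  · exact finx_true (finy_true h1 y hy) x hxy

theorem has3_true {m : ℕ} (h : has3 m = true) : ∃ a b c, a ≠ b ∧ a ≠ c ∧ b ≠ c ∧
    m.testBit a = true ∧ m.testBit b = true ∧ m.testBit c = true := by
  obtain ⟨a, h1, h2⟩ := anyBit_true _ _ _ h
  obtain ⟨b, h3, h4⟩ := anyBit_true _ _ _ h2
  obtain ⟨c, h5, -⟩ := anyBit_true _ _ _ h4
  rw [tb_xor_pow] at h3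
  rw [tb_xor_pow, tb_xor_pow] at h5
  have hab : a ≠ b := by
    rintro rfl
    simp [h1] at h3
  have hb : m.testBit b = true := by simpa [hab] using h3
  have hac : a ≠ c := by
    rintro rfl
    simp [h1, hab.symm] at h5
  have hbc : b ≠ c := by
    rintro rfl
    simp [hb, hab] at h5
  have hc : m.testBit c = true := by simpa [hac, hbc] using h5
  exact ⟨a, b, c, hab, hac, hbc, h1, hb, hc⟩

theorem allOk_true {adj S : ℕ} (n : ℕ) (h : allOk adj S n = true) :
    ∀ i, i < n → S.testBit i = true → ok3 adj S i = true := by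
  induction n with
  | zero => intro i hi; omega
  | succ n ih =>
    intro i hi hb
    obtain ⟨h1, h2⟩ := andb_true h
    by_cases hin : i = n
    · rw [hin] at hb ⊢
      rw [tb_eq, hb] at h1
      exact h1
    · exact ih h2 i (by omega) hb

theorem good_true {adj n S : ℕ} (h : good adj n S = true) :
    S ≠ 0 ∧ S < 2 ^ n - 1 ∧ ∀ i, i < n → S.testBit i = true → ok3 adj S i = true := by
  obtain ⟨h1, h2⟩ := andb_true h
  obtain ⟨h3, h4⟩ := andb_true h2
  refine ⟨?_, ?_, allOk_true n h4⟩
  · rintro rfl
    exact absurd h1 (by simp)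
  · have h5 : Nat.ble (Nat.succ S) (Nat.sub (Nat.shiftLeft 1 n) 1) = true := h3
    have h6 := Nat.le_of_ble_eq_true h5
    have h7 : Nat.sub (Nat.shiftLeft 1 n) 1 = 2 ^ n - 1 := by
      show (1 <<< n) - 1 = _
      rw [Nat.one_shiftLeft]
    rw [h7] at h6
    omega

theorem hasCore_true {adj n : ℕ} (k : ℕ) (h : hasCore adj n k = true) :
    ∃ S, good adj n S = true := by
  induction k with
  | zero => exact absurd h (by simp [hasCore])
  | succ k ih =>
    rcases orb_true h with h1 | h1
    · exact ⟨_, h1⟩
    · exact ih h1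

end Pool.Agent.C8
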