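import Pool.Agent.Lib_helper45.C8.Wheel
import Pool.Agent.Lib_helper45.C8.Last

/-!
# Critical graphs with at least 8 vertices have 8-cycles
-/

set_option autoImplicit false

namespace Pool.Agent.C8

open SimpleGraph Classical Pool.Agent.Cyc27

variable {V : Type*} {G : SimpleGraph V} {P : Par} {N : ℕ} {f : ℕ → V}

theorem msound_step {Φ : ℕ → V} {a n x y n' : ℕ} (h : MSound G Φ a n') (hn : n < 16) (hx : x < 16)
    (hy : y < 16) (hn' : n' ≤ 16) (h1 : G.Adj (Φ n) (Φ x)) (h2 : G.Adj (Φ n) (Φ y)) :
    MSound G Φ (step a n x y) n' := by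
  intro i j hi hj hb
  unfold step at hb
  rw [tb_lor_pow, tb_lor_pow, tb_lor_pow, tb_lor_pow] at hb
  simp only [Bool.or_eq_true, decide_eq_true_eq] at hb
  have e1 : Nat.add (Nat.mul 16 n) x = 16 * n + x := rfl
  have e2 : Nat.add (Nat.mul 16 n) y = 16 * n + y := rfl
  have e3 : Nat.add (Nat.mul 16 x) n = 16 * x + n := rfl
  have e4 : Nat.add (Nat.mul 16 y) n = 16 * y + n := rfl
  rw [e1, e2, e3, e4] at hb
  rcases hb with (((hb | hb) | hb) | hb) | hb
  · exact h i j hi hj hb
  · have hi' : i = n := by omega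
    have hj' : j = x := by omega
    rw [hi', hj']; exact h1
  · have hi' : i = n := by omega
    have hj' : j = y := by omega
    rw [hi', hj']; exact h2
  · have hi' : i = x := by omega
    have hj' : j = n := by omega
    rw [hi', hj']; exact h1.symm
  · have hi' : i = y := by omega
    have hj' : j = n := by omega
    rw [hi', hj']; exact h2.symm

variable [Fintype V]

theorem no_good (hG : Deg2 G) {Φ : ℕ → V} {adj n S : ℕ} (hΦ : ∀ i j, i < n → j < n → Φ i = Φ j → i = j)
    (hM : MSound G Φ adj n) : good adj n S = false := by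
  rcases hgood : good adj n S with _ | _
  · rfl
  exfalso
  obtain ⟨h0, h1, h2⟩ := good_true hgood
  have hpow : 0 < 2 ^ n := by positivity
  have hlt : S < 2 ^ n := by omega
  have hbn : ∀ i, S.testBit i = true → i < n := by
    intro i hi
    by_contra h3
    have h4 : S < 2 ^ i := lt_of_lt_of_le hlt (Nat.pow_le_pow_right (by norm_num) (by omega))
    rw [Nat.testBit_lt_two_pow h4] at hi
    exact absurd hi (by simp)
  set T : Finset V := ((Finset.range n).filter (fun i => S.testBit i = true)).image Φ with hT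
  have hmem : ∀ i, S.testBit i = true → Φ i ∈ T := by
    intro i hi
    exact Finset.mem_image_of_mem _ (Finset.mem_filter.2 ⟨Finset.mem_range.2 (hbn i hi), hi⟩)
  have hne : T.Nonempty := by
    obtain ⟨i, hi⟩ := Nat.exists_testBit_of_ne_zero h0
    exact ⟨_, hmem i hi⟩
  have hpr : T ≠ Finset.univ := by
    have : ∃ i, i < n ∧ S.testBit i = false := by
      by_contra hcon
      push Not at hcon
      have : S = 2 ^ n - 1 := by
        apply Nat.eq_of_testBit_eq
        intro i
        rw [Nat.testBit_two_pow_sub_one]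
        by_cases hin : i < n
        · have := hcon i hin
          simp only [ne_eq, Bool.not_eq_false] at this
          rw [this]
          simp [hin]
        · have h4 : S < 2 ^ i := lt_of_lt_of_le hlt (Nat.pow_le_pow_right (by norm_num) (by omega))
          rw [Nat.testBit_lt_two_pow h4]
          simp [hin]
      omega
    obtain ⟨i, hi, hib⟩ := this
    intro h3
    have h4 : Φ i ∈ T := by rw [h3]; exact Finset.mem_univ _
    obtain ⟨j, hj, hji⟩ := Finset.mem_image.1 h4
    rw [Finset.mem_filter, Finset.mem_range] at hj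
    have := hΦ j i hj.1 hi hji
    rw [this, hib] at hj
    exact absurd hj.2 (by simp)
  obtain ⟨u, hu, hd⟩ := hG T hne hpr
  obtain ⟨i, hi, rfl⟩ := Finset.mem_image.1 hu
  rw [Finset.mem_filter, Finset.mem_range] at hi
  obtain ⟨a, b, c, hab, hac, hbc, ha, hb, hc⟩ := has3_true (h2 i hi.1 hi.2)
  have key : ∀ z, (Nat.land (Nat.shiftRight adj (Nat.mul 16 i)) S).testBit z = true →
      S.testBit z = true ∧ G.Adj (Φ i) (Φ z) := by
    intro z hz
    have h3 : Nat.land (Nat.shiftRight adj (Nat.mul 16 i)) S = (adj >>> (16 * i)) &&& S := rfl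
    rw [h3, Nat.testBit_and, Nat.testBit_shiftRight, Bool.and_eq_true] at hz
    exact ⟨hz.2, hM i z hi.1 (hbn z hz.2) hz.1⟩
  obtain ⟨a1, a2⟩ := key a ha
  obtain ⟨b1, b2⟩ := key b hb
  obtain ⟨c1, c2⟩ := key c hc
  have hne' : ∀ y z, S.testBit y = true → S.testBit z = true → y ≠ z → Φ y ≠ Φ z := by
    intro y z hy hz hyz h
    exact hyz (hΦ y z (hbn y hy) (hbn z hz) h)
  have := dg_three (hmem a a1) (hmem b b1) (hmem c c1) (hne' _ _ a1 b1 hab) (hne' _ _ a1 c1 hac)
    (hne' _ _ b1 c1 hbc) a2 b2 c2
  omega

theorem last_step (hG : Deg2 G) (hno : NoC8 G) (R : Real G P N f) {v : V} (hfv : ∀ i, i < N → f i ≠ v)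
    {C : Code} (hC : C ∈ codes) {g : ℕ → ℕ} (E : Emb P N C g) (h4 : 4 ≤ C.length) {x y : ℕ}
    (hxy : x < y) (hy : y < C.length + 2) (hvx : G.Adj v (f (g x))) (hvy : G.Adj v (f (g y)))
    (hvt : G.Adj v (f (g (C.length + 2)))) : False := by
  have hl5 : C.length ≤ 5 := (codes_ok hC).1
  have hS := csound_code hC
  have hMs := E.msound R hS (by omega)
  have hnot : ∀ i < C.length + 3, v ≠ f (g i) := fun i hi h => hfv _ (E.lt i hi) h.symm
  have hp : ∀ a b, a < C.length + 3 → b < C.length + 3 → a ≠ b → G.Adj v (f (g a)) →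
      G.Adj v (f (g b)) → path6 (adjOf C 3 base) (C.length + 3) a b = false := by
    intro a b ha hb hab h1 h2
    exact path6_false hno (E.finj R) hMs ha hb hab h1 h2 hnot
  have hfin := finC_true hC h4 hxy hy
  have hpred : Nat.pred (C.length + 3) = C.length + 2 := rfl
  rcases orb_true hfin with h | h
  · rw [hp x y (by omega) (by omega) (by omega) hvx hvy] at h
    exact absurd h (by simp)
  rcases orb_true h with h | h
  · rw [hpred, hp x _ (by omega) (by omega) (by omega) hvx hvt] at h
    exact absurd h (by simp)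
  rcases orb_true h with h | h
  · rw [hpred, hp y _ (by omega) (by omega) (by omega) hvy hvt] at h
    exact absurd h (by simp)
  obtain ⟨S, hgood⟩ := hasCore_true _ h
  set m := C.length + 3 with hm
  set Φ : ℕ → V := fun i => if i = m then v else f (g i) with hΦ
  have hΦm : Φ m = v := by simp [hΦ]
  have hΦi : ∀ i, i < m → Φ i = f (g i) := by
    intro i hi
    have : i ≠ m := by omega
    simp [hΦ, this]
  have hinj : ∀ i j, i < m + 1 → j < m + 1 → Φ i = Φ j → i = j := by
    intro i j hi hj hij
    by_cases h1 : i = m <;> by_cases h2 : j = m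
    · omega
    · rw [h1, hΦm, hΦi j (by omega)] at hij
      exact absurd hij (hnot j (by omega))
    · rw [h2, hΦm, hΦi i (by omega)] at hij
      exact absurd hij.symm (hnot i (by omega))
    · rw [hΦi i (by omega), hΦi j (by omega)] at hij
      exact E.finj R i j (by omega) (by omega) hij
  have hM0 : MSound G Φ (adjOf C 3 base) (m + 1) := by
    intro i j hi hj hb
    obtain ⟨h1, h2, h3⟩ := hS i j (by omega) (by omega) hb
    rw [hΦi i h1, hΦi j h2]
    exact E.adj R h1 h2 h3
  have hM1 : MSound G Φ (step (adjOf C 3 base) m x y) (m + 1) :=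
    msound_step hM0 (by omega) (by omega) (by omega) (by omega)
      (by rw [hΦm, hΦi x (by omega)]; exact hvx) (by rw [hΦm, hΦi y (by omega)]; exact hvy)
  have hM2 : MSound G Φ (addv (adjOf C 3 base) m x y) (m + 1) := by
    unfold addv
    have h5 : G.Adj (Φ m) (Φ (Nat.pred m)) := by
      rw [hΦm, hΦi (Nat.pred m) (by show m - 1 < m; omega)]
      exact hvt
    exact msound_step hM1 (by omega) (by show m - 1 < 16; omega) (by show m - 1 < 16; omega)
      (by omega) h5 h5
  have h6 := no_good hG hinj hM2 (S := S)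
  have h7 : good (addv (adjOf C 3 base) m x y) (m + 1) S = true := hgood
  rw [h6] at h7
  exact absurd h7 (by simp)

theorem eight_cycle (hG : Deg2 G) (hE : G.edgeSet.ncard = 2 * Fintype.card V - 2)
    (hn : 8 ≤ Fintype.card V) : ¬ NoC8 G := by
  intro hno
  rcases choose_v hG hE (by omega) with ⟨v, hv3, hv1⟩ | ⟨h, hh⟩
  swap
  · exact wheel_cycle hG hn hh hno
  have hmin := min_deg hG hE (by omega)
  have hU := D_all hE (by omega)
  obtain ⟨N, hN⟩ : ∃ N, Fintype.card V = N + 1 := ⟨Fintype.card V - 1, by omega⟩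
  have hc : (Finset.univ.erase v).card = N := by
    rw [Finset.card_erase_of_mem (Finset.mem_univ v), Finset.card_univ, hN]
    omega
  have he := D_erase G (Finset.mem_univ v)
  obtain ⟨P, f, R, hf, hex⟩ := exists_real2 G hG N (by omega) (Finset.univ.erase v) hc
    erase_ne_univ (by omega)
  have hfv : ∀ i, i < N → f i ≠ v := fun i hi => Finset.ne_of_mem_erase (hf i hi)
  have himg : (Finset.range N).image f = Finset.univ.erase v := by
    apply Finset.eq_of_subset_of_card_le
    · intro x hx
      obtain ⟨i, hi, rfl⟩ := Finset.mem_image.1 hx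
      exact hf i (Finset.mem_range.1 hi)
    · rw [Finset.card_image_of_injOn, Finset.card_range, hc]
      intro i hi j hj hij
      exact R.inj i j (by simpa using hi) (by simpa using hj) hij
  have hsurj : ∀ w, w ≠ v → ∃ i, i < N ∧ f i = w := by
    intro w hw
    have : w ∈ (Finset.range N).image f := by
      rw [himg]; exact Finset.mem_erase.2 ⟨hw, Finset.mem_univ w⟩
    obtain ⟨i, hi, hiw⟩ := Finset.mem_image.1 this
    exact ⟨i, Finset.mem_range.1 hi, hiw⟩
  -- a vertex without children is a neighbour of `v` of degree 3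
  have htop : ∀ i, 3 ≤ i → i < N → (∀ j, 3 ≤ j → j < N → P.p j ≠ i ∧ P.q j ≠ i) →
      G.Adj v (f i) ∧ dg G Finset.univ (f i) = 3 := by
    intro i hi3 hiN hch
    have hsub : Finset.univ.filter (fun w => G.Adj (f i) w) ⊆ {f (P.p i), f (P.q i), v} := by
      intro w hw
      have hadj := (Finset.mem_filter.1 hw).2
      by_cases hwv : w = v
      · simp [hwv]
      obtain ⟨j, hj, rfl⟩ := hsurj w hwv
      rcases lt_trichotomy j i with h1 | h1 | h1
      · rcases hex i hi3 hiN j h1 hadj with h2 | h2
        · simp [h2]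
        · simp [h2]
      · rw [h1] at hadj
        exact absurd hadj (G.irrefl)
      · exfalso
        have h3 := hch j (by omega) hj
        rcases hex j (by omega) hj i h1 hadj.symm with h2 | h2
        · exact h3.1 h2.symm
        · exact h3.2 h2.symm
    have h3 := hmin (f i)
    have hcard : (Finset.univ.filter (fun w => G.Adj (f i) w)).card ≤
        ({f (P.p i), f (P.q i), v} : Finset V).card := Finset.card_le_card hsub
    have hle : ({f (P.p i), f (P.q i), v} : Finset V).card ≤ 3 := Finset.card_le_three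
    refine ⟨?_, ?_⟩
    · by_contra hnv
      have hsub2 : Finset.univ.filter (fun w => G.Adj (f i) w) ⊆ {f (P.p i), f (P.q i)} := by
        intro w hw
        have h4 := hsub hw
        have hadj := (Finset.mem_filter.1 hw).2
        simp only [Finset.mem_insert, Finset.mem_singleton] at h4 ⊢
        rcases h4 with h4 | h4 | h4
        · exact Or.inl h4
        · exact Or.inr h4
        · rw [h4] at hadj
          exact absurd hadj.symm hnv
      have h5 := Finset.card_le_card hsub2
      have h6 : ({f (P.p i), f (P.q i)} : Finset V).card ≤ 2 := Finset.card_le_two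
      unfold dg at h3
      omega
    · unfold dg at h3 ⊢
      omega
  have hlast := htop (N - 1) (by omega) (by omega) (fun j hj3 hj => by
    have h1 := P.hp j hj3
    have h2 := P.hq j hj3
    constructor <;> omega)
  have hchild : ∀ i, 3 ≤ i → i + 1 < N → ∃ j, 3 ≤ j ∧ j < N ∧ (P.p j = i ∨ P.q j = i) := by
    intro i hi3 hi
    by_contra hcon
    push Not at hcon
    obtain ⟨h1, h2⟩ := htop i hi3 (by omega) (fun j hj3 hj => hcon j hj3 hj)
    have hne : f i ≠ f (N - 1) := by
      intro h3
      have := R.inj i (N - 1) (by omega) (by omega) h3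
      omega
    have hsub : ({f i, f (N - 1)} : Finset V) ⊆
        (Finset.univ.filter (fun w => dg G Finset.univ w = 3)).filter (fun w => G.Adj v w) := by
      intro w hw
      simp only [Finset.mem_insert, Finset.mem_singleton] at hw
      rcases hw with rfl | rfl
      · exact Finset.mem_filter.2 ⟨Finset.mem_filter.2 ⟨Finset.mem_univ _, h2⟩, h1⟩
      · exact Finset.mem_filter.2 ⟨Finset.mem_filter.2 ⟨Finset.mem_univ _, hlast.2⟩, hlast.1⟩
    have h3 := Finset.card_le_card hsub
    rw [Finset.card_pair hne] at h3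
    have h4 : ((Finset.univ.filter (fun w => dg G Finset.univ w = 3)).filter
      (fun w => G.Adj v w)).card ≤ 1 := hv1
    omega
  obtain ⟨C, hC, g, E, hgt, hgle⟩ := has_type hno R (N - 1) (by omega)
  have hl5 : C.length ≤ 5 := (codes_ok hC).1
  -- the closure of the last vertex is everything
  have hcover : ∀ d i, i + d + 1 = N → 3 ≤ i → ∃ j, j < C.length + 3 ∧ g j = i := by
    intro d
    induction d using Nat.strong_induction_on with
    | _ d ih =>
      intro i hid hi3
      by_cases hd : d = 0
      · exact ⟨C.length + 2, by omega, by rw [hgt]; omega⟩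
      obtain ⟨c, hc3, hcN, hci⟩ := hchild i hi3 (by omega)
      have hcp := P.hp c hc3
      have hcq := P.hq c hc3
      obtain ⟨j, hj, hgj⟩ := ih (N - 1 - c) (by omega) c (by omega) hc3
      have hj3 : 3 ≤ j := by
        by_contra h1
        have := E.base j (by omega)
        omega
      obtain ⟨k, rfl⟩ : ∃ k, j = k + 3 := ⟨j - 3, by omega⟩
      have hk : k < C.length := by omega
      obtain ⟨h1, h2, h3, h5⟩ := E.par k hk
      rw [hgj] at h5
      rcases h5 with ⟨h6, h7⟩ | ⟨h6, h7⟩ <;> rcases hci with h8 | h8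
      · exact ⟨_, by omega, h6.symm.trans h8⟩
      · exact ⟨_, by omega, h7.symm.trans h8⟩
      · exact ⟨_, by omega, h6.symm.trans h8⟩
      · exact ⟨_, by omega, h7.symm.trans h8⟩
  have hcover' : ∀ i, i < N → ∃ j, j < C.length + 3 ∧ g j = i := by
    intro i hi
    by_cases h3 : 3 ≤ i
    · exact hcover (N - 1 - i) i (by omega) h3
    · have a0 := E.base 0 (by omega)
      have a1 := E.base 1 (by omega)
      have a2 := E.base 2 (by omega)
      have b01 : g 0 ≠ g 1 := fun h => absurd (E.inj 0 1 (by omega) (by omega) h) (by omega)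
      have b02 : g 0 ≠ g 2 := fun h => absurd (E.inj 0 2 (by omega) (by omega) h) (by omega)
      have b12 : g 1 ≠ g 2 := fun h => absurd (E.inj 1 2 (by omega) (by omega) h) (by omega)
      have : i = g 0 ∨ i = g 1 ∨ i = g 2 := by omega
      rcases this with h | h | h
      · exact ⟨0, by omega, h.symm⟩
      · exact ⟨1, by omega, h.symm⟩
      · exact ⟨2, by omega, h.symm⟩
  have hNle : N ≤ C.length + 3 := by
    have h1 : Finset.range N ⊆ (Finset.range (C.length + 3)).image g := by
      intro i hi
      obtain ⟨j, hj, hji⟩ := hcover' i (Finset.mem_range.1 hi)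
      exact Finset.mem_image.2 ⟨j, Finset.mem_range.2 hj, hji⟩
    have h2 := (Finset.card_le_card h1).trans Finset.card_image_le
    rwa [Finset.card_range, Finset.card_range] at h2
  have h4 : 4 ≤ C.length := by omega
  -- the two other neighbours of `v`
  have hvt : G.Adj v (f (g (C.length + 2))) := by rw [hgt]; exact hlast.1
  obtain ⟨Nv, hNv⟩ : ∃ Nv : Finset V, Nv = Finset.univ.filter (fun w => G.Adj v w) := ⟨_, rfl⟩
  have hmemv : ∀ w, w ∈ Nv ↔ G.Adj v w := by
    intro w
    rw [hNv]
    simp
  have hcardv : 1 < (Nv.erase (f (N - 1))).card := by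
    have h5 : Nv.card = 3 := by
      unfold dg at hv3
      rw [hNv, ← hv3]
    rw [Finset.card_erase_of_mem ((hmemv _).2 hlast.1)]
    omega
  obtain ⟨a, ha, b, hb, hab⟩ := Finset.one_lt_card.1 hcardv
  have key : ∀ w ∈ Nv.erase (f (N - 1)),
      ∃ x, x < C.length + 2 ∧ f (g x) = w ∧ G.Adj v w := by
    intro w hw
    obtain ⟨h1, h2⟩ := Finset.mem_erase.1 hw
    have h3 := (hmemv w).1 h2
    obtain ⟨i, hi, rfl⟩ := hsurj w h3.ne'
    obtain ⟨j, hj, rfl⟩ := hcover' i hi
    refine ⟨j, ?_, rfl, h3⟩
    by_contra h5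
    have h6 : j = C.length + 2 := by omega
    rw [h6, hgt] at h1
    exact h1 rfl
  obtain ⟨x, hx, hxa, hva⟩ := key a ha
  obtain ⟨y, hy, hyb, hvb⟩ := key b hb
  rw [← hxa] at hva hab
  rw [← hyb] at hvb hab
  have hxy : x ≠ y := fun h => hab (by rw [h])
  rcases Nat.lt_or_gt_of_ne hxy with h | h
  · exact last_step hG hno R hfv hC E h4 h hy hva hvb hvt
  · exact last_step hG hno R hfv hC E h4 h hx hvb hva hvt

end Pool.Agent.C8
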