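import Pool.Agent.Lib_helper45.C8.Sound

/-!
# Soundness of the merging procedure
-/

set_option autoImplicit false

namespace Pool.Agent.C8

open SimpleGraph Pool.Agent.Cyc27

/-- `w` has the parents `a` and `b` -/
def Par2 (P : Par) (w a b : ℕ) : Prop :=
  3 ≤ w ∧ ((P.p w = a ∧ P.q w = b) ∨ (P.p w = b ∧ P.q w = a))

/-- `g` maps the vertices of the code `U` to a set of vertices of the parent system that is closed
under taking parents, and preserves parents -/
structure Emb (P : Par) (N : ℕ) (U : Code) (g : ℕ → ℕ) : Prop where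
  lt : ∀ i, i < U.length + 3 → g i < N
  inj : ∀ i j, i < U.length + 3 → j < U.length + 3 → g i = g j → i = j
  base : ∀ i, i < 3 → g i < 3
  par : ∀ k (h : k < U.length), (U[k]).1 < k + 3 ∧ (U[k]).2 < k + 3 ∧
    Par2 P (g (k + 3)) (g (U[k]).1) (g (U[k]).2)

def CAdj (U : Code) (i j : ℕ) : Prop :=
  (i < 3 ∧ j < 3 ∧ i ≠ j) ∨ ∃ k, ∃ _ : k < U.length,
    (i = k + 3 ∧ (j = (U[k]).1 ∨ j = (U[k]).2)) ∨ (j = k + 3 ∧ (i = (U[k]).1 ∨ i = (U[k]).2))

def CSound (U : Code) (adj : ℕ) : Prop :=
  ∀ i j, i < 16 → j < 16 → adj.testBit (16 * i + j) = true →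
    i < U.length + 3 ∧ j < U.length + 3 ∧ CAdj U i j

theorem CAdj.append {U W : Code} {i j : ℕ} (h : CAdj U i j) : CAdj (U ++ W) i j := by
  rcases h with h | ⟨k, hk, h⟩
  · exact Or.inl h
  · refine Or.inr ⟨k, by rw [List.length_append]; omega, ?_⟩
    rw [List.getElem_append_left hk]
    exact h

theorem csound_base : CSound [] base := by
  have h : ∀ i < 16, ∀ j < 16, base.testBit (16 * i + j) = true → i < 3 ∧ j < 3 ∧ i ≠ j := by
    decide +kernel
  intro i j hi hj hb
  obtain ⟨h1, h2, h3⟩ := h i hi j hj hb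
  exact ⟨by simpa using h1, by simpa using h2, Or.inl ⟨h1, h2, h3⟩⟩

theorem csound_step {U : Code} {adj n x y : ℕ} (h : CSound U adj) (hn : n = U.length + 3)
    (hn16 : n ≤ 15) (hx : x < n) (hy : y < n) : CSound (U ++ [(x, y)]) (step adj n x y) := by
  intro i j hi hj hb
  have hlen : (U ++ [(x, y)]).length = U.length + 1 := by simp
  have hget : ∀ hk : U.length < (U ++ [(x, y)]).length, (U ++ [(x, y)])[U.length] = (x, y) := by
    intro hk; simp
  unfold step at hb
  rw [tb_lor_pow, tb_lor_pow, tb_lor_pow, tb_lor_pow] at hb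
  simp only [Bool.or_eq_true, decide_eq_true_eq] at hb
  have e1 : Nat.add (Nat.mul 16 n) x = 16 * n + x := rfl
  have e2 : Nat.add (Nat.mul 16 n) y = 16 * n + y := rfl
  have e3 : Nat.add (Nat.mul 16 x) n = 16 * x + n := rfl
  have e4 : Nat.add (Nat.mul 16 y) n = 16 * y + n := rfl
  rw [e1, e2, e3, e4] at hb
  have hkk : U.length < (U ++ [(x, y)]).length := by omega
  rcases hb with (((hb | hb) | hb) | hb) | hb
  · obtain ⟨h1, h2, h3⟩ := h i j hi hj hb
    exact ⟨by omega, by omega, h3.append⟩
  · have hi' : i = n := by omega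
    have hj' : j = x := by omega
    refine ⟨by omega, by omega, Or.inr ⟨U.length, hkk, Or.inl ⟨by omega, Or.inl ?_⟩⟩⟩
    rw [hget hkk]; exact hj'
  · have hi' : i = n := by omega
    have hj' : j = y := by omega
    refine ⟨by omega, by omega, Or.inr ⟨U.length, hkk, Or.inl ⟨by omega, Or.inr ?_⟩⟩⟩
    rw [hget hkk]; exact hj'
  · have hi' : i = x := by omega
    have hj' : j = n := by omega
    refine ⟨by omega, by omega, Or.inr ⟨U.length, hkk, Or.inr ⟨by omega, Or.inl ?_⟩⟩⟩
    rw [hget hkk]; exact hi'
  · have hi' : i = y := by omega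
    have hj' : j = n := by omega
    refine ⟨by omega, by omega, Or.inr ⟨U.length, hkk, Or.inr ⟨by omega, Or.inr ?_⟩⟩⟩
    rw [hget hkk]; exact hi'

theorem csound_adjOf (W : Code) : ∀ (U : Code) (n a : ℕ), n = U.length + 3 →
    U.length + W.length + 3 ≤ 16 → CSound U a →
    (∀ k (h : k < W.length), (W[k]).1 < n + k ∧ (W[k]).2 < n + k) →
    CSound (U ++ W) (adjOf W n a) := by
  induction W with
  | nil => intro U n a _ _ h _; simpa [adjOf] using h
  | cons p W ih =>
    intro U n a hn hlen h hW
    have h0 := hW 0 (by simp)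
    simp only [List.getElem_cons_zero, Nat.add_zero] at h0
    have hl : (p :: W).length = W.length + 1 := rfl
    have h1 := ih (U ++ [(p.1, p.2)]) (n + 1) (step a n p.1 p.2) (by simp; omega)
      (by rw [List.length_append, List.length_singleton]; omega)
      (csound_step h hn (by omega) h0.1 h0.2) (by
        intro k hk
        have := hW (k + 1) (by simpa using hk)
        simp only [List.getElem_cons_succ] at this
        omega)
    have h2 : adjOf (p :: W) n a = adjOf W (n + 1) (step a n p.1 p.2) := rfl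
    rw [h2]
    have h3 : U ++ p :: W = U ++ [(p.1, p.2)] ++ W := by simp
    rw [h3]
    exact h1

variable {V : Type*} {G : SimpleGraph V} {P : Par} {N : ℕ} {f : ℕ → V}

theorem Emb.adj {U : Code} {g : ℕ → ℕ} (R : Real G P N f) (E : Emb P N U g) {i j : ℕ}
    (hi : i < U.length + 3) (hj : j < U.length + 3) (h : CAdj U i j) :
    G.Adj (f (g i)) (f (g j)) := by
  have key : ∀ i j k (hk : k < U.length), i = k + 3 → (j = (U[k]).1 ∨ j = (U[k]).2) →
      G.Adj (f (g i)) (f (g j)) := by
    intro i j k hk hi hj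
    obtain ⟨h1, h2, h3, h4⟩ := E.par k hk
    have h5 : g j = P.p (g (k + 3)) ∨ g j = P.q (g (k + 3)) := by
      rcases hj with hj | hj <;> rcases h4 with ⟨h6, h7⟩ | ⟨h6, h7⟩ <;> rw [hj]
      · exact Or.inl h6.symm
      · exact Or.inr h7.symm
      · exact Or.inr h7.symm
      · exact Or.inl h6.symm
    rw [hi]
    exact R.adj_par h3 (E.lt _ (by omega)) h5
  rcases h with ⟨h1, h2, h3⟩ | ⟨k, hk, h | h⟩
  · exact R.adj3 (E.base i h1) (E.base j h2) (fun h4 => h3 (E.inj i j hi hj h4))
  · exact key i j k hk h.1 h.2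
  · exact (key j i k hk h.1 h.2).symm

theorem Emb.msound {U : Code} {g : ℕ → ℕ} {adj : ℕ} (R : Real G P N f) (E : Emb P N U g)
    (hS : CSound U adj) (hlen : U.length + 3 ≤ 16) :
    MSound G (fun i => f (g i)) adj (U.length + 3) := by
  intro i j hi hj hb
  exact E.adj R hi hj (hS i j (by omega) (by omega) hb).2.2

theorem Emb.finj {U : Code} {g : ℕ → ℕ} (R : Real G P N f) (E : Emb P N U g) :
    ∀ i j, i < U.length + 3 → j < U.length + 3 → f (g i) = f (g j) → i = j := by
  intro i j hi hj h
  exact E.inj i j hi hj (R.inj _ _ (E.lt i hi) (E.lt j hj) h)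

/-- the parents of a vertex outside are joined by no path with 6 edges -/
theorem Emb.no_path {U : Code} {g : ℕ → ℕ} {adj x y w : ℕ} (hno : NoC8 G) (R : Real G P N f)
    (E : Emb P N U g) (hS : CSound U adj) (hlen : U.length + 3 ≤ 16) (hx : x < U.length + 3)
    (hy : y < U.length + 3) (hxy : x ≠ y) (hw : w < N) (hpar : Par2 P w (g x) (g y))
    (hnot : ∀ i, i < U.length + 3 → g i ≠ w) : path6 adj (U.length + 3) x y = false := by
  obtain ⟨h3, h4⟩ := hpar
  have h5 : (g x = P.p w ∨ g x = P.q w) ∧ (g y = P.p w ∨ g y = P.q w) := by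
    rcases h4 with ⟨h6, h7⟩ | ⟨h6, h7⟩
    · exact ⟨Or.inl h6.symm, Or.inr h7.symm⟩
    · exact ⟨Or.inr h7.symm, Or.inl h6.symm⟩
  refine path6_false (t := f w) hno (E.finj R) (E.msound R hS hlen) hx hy hxy
    (R.adj_par h3 hw h5.1) (R.adj_par h3 hw h5.2) ?_
  intro i hi h
  exact hnot i hi (R.inj _ _ hw (E.lt i hi) h).symm

/-- adding a vertex -/
theorem Emb.snoc {U : Code} {g : ℕ → ℕ} {x y w : ℕ} (E : Emb P N U g) (hx : x < U.length + 3)
    (hy : y < U.length + 3) (hw : w < N) (hpar : Par2 P w (g x) (g y))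
    (hnot : ∀ i, i < U.length + 3 → g i ≠ w) :
    Emb P N (U ++ [(x, y)]) (Function.update g (U.length + 3) w) := by
  have hlen : (U ++ [(x, y)]).length = U.length + 1 := by simp
  have hu : ∀ i, i < U.length + 3 → Function.update g (U.length + 3) w i = g i := by
    intro i hi
    exact Function.update_of_ne (by omega) _ _
  refine ⟨?_, ?_, ?_, ?_⟩
  · intro i hi
    by_cases h : i = U.length + 3
    · rw [h, Function.update_self]; exact hw
    · rw [hu i (by omega)]; exact E.lt i (by omega)
  · intro i j hi hj hij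
    by_cases h1 : i = U.length + 3 <;> by_cases h2 : j = U.length + 3
    · omega
    · rw [h1, Function.update_self, hu j (by omega)] at hij
      exact absurd hij.symm (hnot j (by omega))
    · rw [h2, Function.update_self, hu i (by omega)] at hij
      exact absurd hij (hnot i (by omega))
    · rw [hu i (by omega), hu j (by omega)] at hij
      exact E.inj i j (by omega) (by omega) hij
  · intro i hi
    rw [hu i (by omega)]
    exact E.base i hi
  · intro k hk
    by_cases h : k = U.length
    · subst h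
      have : (U ++ [(x, y)])[U.length] = (x, y) := by simp
      rw [this]
      refine ⟨hx, hy, ?_⟩
      rw [Function.update_self, hu x hx, hu y hy]
      exact hpar
    · have hk' : k < U.length := by omega
      rw [List.getElem_append_left hk']
      obtain ⟨h1, h2, h3⟩ := E.par k hk'
      refine ⟨h1, h2, ?_⟩
      rw [hu _ (by omega), hu _ (by omega), hu _ (by omega)]
      exact h3

theorem allSame_true (p : ℕ → Bool) (x y : ℕ) (U : Code) : ∀ a, allSame p x y U a = true →
    ∀ k (h : k < U.length), samePair (U[k]) x y = true → p (a + k) = true := by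
  induction U with
  | nil => intro a _ k h; simp at h
  | cons q U ih =>
    intro a h k hk hs
    have h1 : allSame p x y (q :: U) a = andb
        (Bool.rec (motive := fun _ => Bool) true (p a) (samePair q x y))
        (allSame p x y U (Nat.succ a)) := rfl
    rw [h1] at h
    obtain ⟨h2, h3⟩ := andb_true h
    cases k with
    | zero =>
      simp only [List.getElem_cons_zero] at hs
      rw [hs] at h2
      simpa using h2
    | succ k =>
      simp only [List.getElem_cons_succ] at hs
      have := ih (Nat.succ a) h3 k (by simpa using hk) hs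
      rw [show a + (k + 1) = Nat.succ a + k by omega]
      exact this

theorem samePair_of {p : ℕ × ℕ} {x y : ℕ} (h : (p.1 = x ∧ p.2 = y) ∨ (p.1 = y ∧ p.2 = x)) :
    samePair p x y = true := by
  unfold samePair
  rcases h with ⟨h1, h2⟩ | ⟨h1, h2⟩
  · rw [h1, h2, Nat.beq_refl, Nat.beq_refl]
    rfl
  · rw [h1, h2, Nat.beq_refl, Nat.beq_refl]
    cases (andb (Nat.beq y x) (Nat.beq x y)) <;> rfl

theorem upd_self (φ : ℕ → ℕ) (b a : ℕ) : upd φ b a b = a := by
  unfold upd
  rw [Nat.beq_refl]

theorem upd_ne (φ : ℕ → ℕ) {b i : ℕ} (a : ℕ) (h : i ≠ b) : upd φ b a i = φ i := by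
  unfold upd
  have : Nat.beq i b = false := by
    rcases hh : Nat.beq i b with _ | _
    · rfl
    · exact absurd (Nat.eq_of_beq_eq_true hh) h
  rw [this]

theorem merge_sound (hno : NoC8 G) (R : Real G P N f) {t : ℕ} {Bf : Code} {h : ℕ → ℕ}
    (hB : Emb P N Bf h) (hht : ∀ i, i < Bf.length + 3 → h i < t)
    (fn : Code → ℕ → ℕ → ℕ → Bool) (B : Code) : ∀ (pre : Code), Bf = pre ++ B →
    ∀ (U : Code) (adj n b : ℕ) (φ g : ℕ → ℕ), CSound U adj → n = U.length + 3 →
    Emb P N U g → (∀ i, i < n → g i < t) → b = pre.length + 3 →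
    (∀ i, i < b → φ i < n ∧ h i = g (φ i)) → n ≤ 16 → merge fn B U adj n b φ = true →
    ∃ (U' : Code) (adj' q : ℕ) (g' : ℕ → ℕ), CSound U' adj' ∧ Emb P N U' g' ∧
      (∀ i, i < U'.length + 3 → g' i < t) ∧ (∀ i, i < n → g' i = g i) ∧ n ≤ U'.length + 3 ∧
      U'.length + 3 ≤ 16 ∧ q < U'.length + 3 ∧ g' q = h (Bf.length + 2) ∧
      fn U' adj' (U'.length + 3) q = true := by
  induction B with
  | nil =>
    intro pre hpre U adj n b φ g hS hn E hgt hb hφ hn16 hm
    have h1 : merge fn [] U adj n b φ = fn U adj n (φ (Nat.pred b)) := rfl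
    rw [h1] at hm
    have hpre' : Bf.length = pre.length := by rw [hpre, List.append_nil]
    have hb1 : Nat.pred b = Bf.length + 2 := by rw [hb, hpre']; rfl
    obtain ⟨h2, h3⟩ := hφ (Nat.pred b) (by rw [hb1]; omega)
    refine ⟨U, adj, φ (Nat.pred b), g, hS, E, ?_, fun _ _ => rfl, by omega, by omega, by omega, ?_, ?_⟩
    · intro i hi; exact hgt i (by omega)
    · rw [← h3, hb1]
    · rw [← hn]; exact hm
  | cons p B ih =>
    intro pre hpre U adj n b φ g hS hn E hgt hb hφ hn16 hm
    have h1 : merge fn (p :: B) U adj n b φ =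
      andb (allSame (fun a => merge fn B U adj n (Nat.succ b) (upd φ b a)) (φ p.1) (φ p.2) U 3)
        (orb (path6 adj n (φ p.1) (φ p.2))
          (andb (Nat.ble n 15) (merge fn B (List.append U [(φ p.1, φ p.2)])
            (step adj n (φ p.1) (φ p.2)) (Nat.succ n) (Nat.succ b) (upd φ b n)))) := rfl
    rw [h1] at hm
    obtain ⟨hm1, hm2⟩ := andb_true hm
    -- the vertex `b` of `Bf`
    have hk : pre.length < Bf.length := by rw [hpre]; simp
    have hBk : Bf[pre.length] = p := by
      subst hpre
      simp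
    obtain ⟨hp1, hp2, hpar⟩ := hB.par pre.length hk
    rw [hBk] at hp1 hp2 hpar
    have hb3 : pre.length + 3 = b := hb.symm
    rw [hb3] at hp1 hp2 hpar
    obtain ⟨hx, hx'⟩ := hφ p.1 hp1
    obtain ⟨hy, hy'⟩ := hφ p.2 hp2
    rw [hx', hy'] at hpar
    have hbN : h b < N := hB.lt b (by omega)
    have hbt : h b < t := hht b (by omega)
    have hpre2 : Bf = (pre ++ [p]) ++ B := by rw [hpre]; simp
    have hlen2 : Nat.succ b = (pre ++ [p]).length + 3 := by
      rw [List.length_append, List.length_singleton]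
      omega
    have hxy : φ p.1 ≠ φ p.2 := by
      intro h2
      obtain ⟨h3, h4⟩ := hpar
      rw [h2] at h4
      have := P.hpq _ h3
      rcases h4 with ⟨h5, h6⟩ | ⟨h5, h6⟩ <;> exact this (h5.trans h6.symm)
    by_cases himg : ∃ a, a < n ∧ g a = h b
    · -- identification
      obtain ⟨a, ha, hga⟩ := himg
      have ha3 : 3 ≤ a := by
        by_contra h2
        have := E.base a (by omega)
        have := hpar.1
        omega
      obtain ⟨k, rfl⟩ : ∃ k, a = 3 + k := ⟨a - 3, by omega⟩
      have hkU : k < U.length := by omega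
      obtain ⟨h2, h3, h4⟩ := E.par k hkU
      rw [show k + 3 = 3 + k by omega, hga] at h4
      have hsame : samePair (U[k]) (φ p.1) (φ p.2) = true := by
        apply samePair_of
        obtain ⟨_, h5⟩ := h4
        obtain ⟨_, h6⟩ := hpar
        have hi1 : (U[k]).1 < U.length + 3 := by omega
        have hi2 : (U[k]).2 < U.length + 3 := by omega
        have hi3 : φ p.1 < U.length + 3 := by omega
        have hi4 : φ p.2 < U.length + 3 := by omega
        rcases h5 with ⟨h7, h8⟩ | ⟨h7, h8⟩ <;> rcases h6 with ⟨h9, h10⟩ | ⟨h9, h10⟩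
        · exact Or.inl ⟨E.inj _ _ hi1 hi3 (h7.symm.trans h9), E.inj _ _ hi2 hi4 (h8.symm.trans h10)⟩
        · exact Or.inr ⟨E.inj _ _ hi1 hi4 (h7.symm.trans h9), E.inj _ _ hi2 hi3 (h8.symm.trans h10)⟩
        · exact Or.inr ⟨E.inj _ _ hi1 hi4 (h8.symm.trans h10), E.inj _ _ hi2 hi3 (h7.symm.trans h9)⟩
        · exact Or.inl ⟨E.inj _ _ hi1 hi3 (h8.symm.trans h10), E.inj _ _ hi2 hi4 (h7.symm.trans h9)⟩
      have h5 := allSame_true _ _ _ U 3 hm1 k hkU hsame
      refine ih (pre ++ [p]) hpre2 U adj n (Nat.succ b) (upd φ b (3 + k)) g hS hn E hgt hlen2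
        ?_ hn16 h5
      intro i hi
      by_cases hib : i = b
      · rw [hib, upd_self]
        exact ⟨ha, hga.symm⟩
      · rw [upd_ne _ _ hib]
        exact hφ i (by omega)
    · -- new vertex
      push Not at himg
      rcases orb_true hm2 with h2 | h2
      · exfalso
        have h3 := E.no_path hno R hS (by omega) (x := φ p.1) (y := φ p.2) (by omega) (by omega)
          hxy hbN hpar (fun i hi => himg i (by omega))
        rw [← hn, h2] at h3
        exact absurd h3 (by simp)
      · obtain ⟨h3, h4⟩ := andb_true h2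
        have hn15 : n ≤ 15 := Nat.le_of_ble_eq_true h3
        have hE' := E.snoc (x := φ p.1) (y := φ p.2) (by omega) (by omega) hbN hpar
          (fun i hi => himg i (by omega))
        have hS' := csound_step hS hn hn15 hx hy
        have hlen3 : (U ++ [(φ p.1, φ p.2)]).length = U.length + 1 := by simp
        have hu : ∀ i, i < n → Function.update g (U.length + 3) (h b) i = g i := by
          intro i hi
          exact Function.update_of_ne (by omega) _ _
        obtain ⟨U', adj', q, g', r1, r2, r3, r4, r5, r6, r7, r8, r9⟩ :=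
          ih (pre ++ [p]) hpre2 (U ++ [(φ p.1, φ p.2)]) (step adj n (φ p.1) (φ p.2)) (Nat.succ n)
            (Nat.succ b) (upd φ b n) (Function.update g (U.length + 3) (h b)) hS' (by omega) hE'
            (by
              intro i hi
              by_cases h5 : i = U.length + 3
              · rw [h5, Function.update_self]; exact hbt
              · rw [hu i (by omega)]; exact hgt i (by omega)) hlen2
            (by
              intro i hi
              by_cases hib : i = b
              · rw [hib, upd_self]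
                refine ⟨by omega, ?_⟩
                rw [hn, Function.update_self]
              · rw [upd_ne _ _ hib]
                obtain ⟨h5, h6⟩ := hφ i (by omega)
                refine ⟨by omega, ?_⟩
                rw [hu _ h5]
                exact h6) (by omega) h4
        refine ⟨U', adj', q, g', r1, r2, r3, ?_, by omega, r6, r7, r8, r9⟩
        intro i hi
        rw [r4 i (by omega)]
        exact hu i hi

end Pool.Agent.C8
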