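import Pool.Agent.Lib_helper45.C8.Data
import Pool.Agent.Lib_helper27.Cyc.Order

/-!
# Soundness of the search
-/

set_option autoImplicit false

namespace Pool.Agent.C8

open SimpleGraph Pool.Agent.Cyc27

theorem tb_eq (m i : ℕ) : tb m i = m.testBit i := by
  unfold tb Nat.testBit
  have h : Nat.land (Nat.shiftRight m i) 1 = 1 &&& m >>> i := Nat.land_comm _ _
  rw [h]
  have h2 : 1 &&& m >>> i < 2 := by
    have := Nat.and_le_left (n := 1) (m := m >>> i)
    omega
  rcases Nat.lt_or_ge (1 &&& m >>> i) 1 with h3 | h3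
  · have : 1 &&& m >>> i = 0 := by omega
    rw [this]; rfl
  · have : 1 &&& m >>> i = 1 := by omega
    rw [this]; rfl

theorem orb_true {a b : Bool} (h : orb a b = true) : a = true ∨ b = true := by
  cases a
  · exact Or.inr h
  · exact Or.inl rfl

theorem andb_true {a b : Bool} (h : andb a b = true) : a = true ∧ b = true := by
  cases a
  · exact absurd h (by simp [andb])
  · exact ⟨rfl, h⟩

theorem tb_xor_pow (m z w : ℕ) :
    (Nat.xor m (Nat.shiftLeft 1 z)).testBit w = (m.testBit w ^^ decide (z = w)) := by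
  have h : Nat.xor m (Nat.shiftLeft 1 z) = m ^^^ (1 <<< z) := rfl
  rw [h, Nat.testBit_xor, Nat.one_shiftLeft, Nat.testBit_two_pow]

theorem tb_lor_pow (m z w : ℕ) :
    (Nat.lor m (Nat.shiftLeft 1 z)).testBit w = (m.testBit w || decide (z = w)) := by
  have h : Nat.lor m (Nat.shiftLeft 1 z) = m ||| (1 <<< z) := rfl
  rw [h, Nat.testBit_or, Nat.one_shiftLeft, Nat.testBit_two_pow]

theorem anyBit_true (p : ℕ → Bool) (fuel : ℕ) : ∀ m, anyBit p fuel m = true →
    ∃ z, m.testBit z = true ∧ p z = true := by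
  induction fuel with
  | zero => intro m h; exact absurd h (by simp [anyBit])
  | succ f ih =>
    intro m h
    rcases Nat.eq_zero_or_pos m with h0 | h0
    · subst h0
      exact absurd h (by simp [anyBit])
    · have hb : Nat.beq m 0 = false := by
        rcases hh : Nat.beq m 0 with _ | _
        · rfl
        · have := Nat.eq_of_beq_eq_true hh
          omega
      have h1 : anyBit p (f + 1) m = orb (p (Nat.log2 m))
          (anyBit p f (Nat.xor m (Nat.shiftLeft 1 (Nat.log2 m)))) := by
        show Bool.rec (motive := fun _ => Bool) _ _ (Nat.beq m 0) = _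
        rw [hb]
        rfl
      rw [h1] at h
      have hl : m.testBit m.log2 = true := Nat.testBit_log2 (by omega)
      rcases orb_true h with h2 | h2
      · exact ⟨_, hl, h2⟩
      · obtain ⟨z, hz, hp⟩ := ih _ h2
        refine ⟨z, ?_, hp⟩
        rw [tb_xor_pow] at hz
        by_cases hzz : m.log2 = z
        · rw [← hzz] at hz ⊢
          exact hl
        · simpa [hzz] using hz

/-! ## paths -/

variable {V : Type*} {G : SimpleGraph V}

/-- the matrix `adj` describes edges of `G` between the vertices `Φ 0, …, Φ (n-1)` -/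
def MSound (G : SimpleGraph V) (Φ : ℕ → V) (adj n : ℕ) : Prop :=
  ∀ i j, i < n → j < n → adj.testBit (16 * i + j) = true → G.Adj (Φ i) (Φ j)

theorem pathc_sound {Φ : ℕ → V} {adj n y : ℕ} (hΦ : ∀ i j, i < n → j < n → Φ i = Φ j → i = j)
    (hM : MSound G Φ adj n) (hy : y < n) (L : ℕ) : ∀ x avail : ℕ, x < n → x ≠ y →
    avail.testBit x = false → avail.testBit y = false → (∀ z, avail.testBit z = true → z < n) →
    pathc adj y L x avail = true →
    ∃ w : G.Walk (Φ x) (Φ y), w.IsPath ∧ w.length = L + 1 ∧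
      ∀ v ∈ w.support, v = Φ x ∨ v = Φ y ∨ ∃ z, avail.testBit z = true ∧ v = Φ z := by
  induction L with
  | zero =>
    intro x avail hx hxy hax hay hav h
    have h1 : G.Adj (Φ x) (Φ y) := by
      apply hM x y hx hy
      have h2 : tb adj (Nat.add (Nat.mul 16 x) y) = true := h
      rw [tb_eq] at h2
      exact h2
    refine ⟨h1.toWalk, ?_, ?_, ?_⟩
    · simp [SimpleGraph.Adj.toWalk, Walk.cons_isPath_iff]
      intro h3
      exact hxy (hΦ x y hx hy h3)
    · simp
    · intro v hv
      simp [SimpleGraph.Adj.toWalk] at hv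
      rcases hv with rfl | rfl
      · exact Or.inl rfl
      · exact Or.inr (Or.inl rfl)
  | succ L ih =>
    intro x avail hx hxy hax hay hav h
    have h1 : anyBit (fun z => pathc adj y L z (Nat.xor avail (Nat.shiftLeft 1 z))) 16
      (Nat.land (Nat.shiftRight adj (Nat.mul 16 x)) avail) = true := h
    obtain ⟨z, hz, hp⟩ := anyBit_true _ _ _ h1
    have h2 : Nat.land (Nat.shiftRight adj (Nat.mul 16 x)) avail = (adj >>> (16 * x)) &&& avail := rfl
    rw [h2, Nat.testBit_and, Nat.testBit_shiftRight, Bool.and_eq_true] at hz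
    obtain ⟨hz1, hz2⟩ := hz
    have hzn : z < n := hav z hz2
    have hzx : z ≠ x := by
      rintro rfl
      rw [hz2] at hax
      exact absurd hax (by simp)
    have hzy : z ≠ y := by
      rintro rfl
      rw [hz2] at hay
      exact absurd hay (by simp)
    have hadj : G.Adj (Φ x) (Φ z) := hM x z hx hzn hz1
    obtain ⟨w, hw1, hw2, hw3⟩ := ih z (Nat.xor avail (Nat.shiftLeft 1 z)) hzn hzy
      (by rw [tb_xor_pow]; simp [hz2]) (by rw [tb_xor_pow]; simp [hay, hzy])
      (by
        intro u hu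
        rw [tb_xor_pow] at hu
        by_cases huz : z = u
        · subst huz; exact hzn
        · exact hav u (by simpa [huz] using hu)) hp
    have hav' : ∀ u, (Nat.xor avail (Nat.shiftLeft 1 z)).testBit u = true → avail.testBit u = true := by
      intro u hu
      rw [tb_xor_pow] at hu
      by_cases huz : z = u
      · subst huz; exact hz2
      · simpa [huz] using hu
    have hnot : Φ x ∉ w.support := by
      intro hmem
      rcases hw3 _ hmem with h3 | h3 | ⟨u, hu, h3⟩
      · exact hzx (hΦ z x hzn hx h3.symm)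
      · exact hxy (hΦ x y hx hy h3)
      · have hu' := hav' u hu
        have := hΦ x u hx (hav u hu') h3
        rw [← this, hax] at hu'
        exact absurd hu' (by simp)
    refine ⟨Walk.cons hadj w, ?_, ?_, ?_⟩
    · rw [Walk.cons_isPath_iff]
      exact ⟨hw1, hnot⟩
    · rw [Walk.length_cons, hw2]
    · intro v hv
      rw [Walk.support_cons, List.mem_cons] at hv
      rcases hv with rfl | hv
      · exact Or.inl rfl
      · rcases hw3 _ hv with h3 | h3 | ⟨u, hu, h3⟩
        · exact Or.inr (Or.inr ⟨z, hz2, h3⟩)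
        · exact Or.inr (Or.inl h3)
        · exact Or.inr (Or.inr ⟨u, hav' u hu, h3⟩)

theorem full_bits (n i : ℕ) : (Nat.sub (Nat.shiftLeft 1 n) 1).testBit i = decide (i < n) := by
  have h : Nat.sub (Nat.shiftLeft 1 n) 1 = 2 ^ n - 1 := by
    show (1 <<< n) - 1 = _
    rw [Nat.one_shiftLeft]
  rw [h, Nat.testBit_two_pow_sub_one]

theorem path6_sound {Φ : ℕ → V} {adj n x y : ℕ} (hΦ : ∀ i j, i < n → j < n → Φ i = Φ j → i = j)
    (hM : MSound G Φ adj n) (hx : x < n) (hy : y < n) (hxy : x ≠ y) (h : path6 adj n x y = true) :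
    ∃ w : G.Walk (Φ x) (Φ y), w.IsPath ∧ w.length = 6 ∧ ∀ v ∈ w.support, ∃ z < n, v = Φ z := by
  have hb : ∀ u, (Nat.xor (Nat.xor (Nat.sub (Nat.shiftLeft 1 n) 1) (Nat.shiftLeft 1 x))
      (Nat.shiftLeft 1 y)).testBit u = ((decide (u < n) ^^ decide (x = u)) ^^ decide (y = u)) := by
    intro u
    rw [tb_xor_pow, tb_xor_pow, full_bits]
  obtain ⟨w, h1, h2, h3⟩ := pathc_sound hΦ hM hy 5 x _ hx hxy
    (by rw [hb]; simp [hx, hxy.symm]) (by rw [hb]; simp [hy, hxy])
    (by
      intro z hz
      rw [hb] at hz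
      by_contra hzn
      have hzx : x ≠ z := by omega
      have hzy : y ≠ z := by omega
      simp [hzn, hzx, hzy] at hz) h
  refine ⟨w, h1, h2, ?_⟩
  intro v hv
  rcases h3 v hv with h4 | h4 | ⟨z, hz, h4⟩
  · exact ⟨x, hx, h4⟩
  · exact ⟨y, hy, h4⟩
  · refine ⟨z, ?_, h4⟩
    rw [hb] at hz
    by_contra hzn
    have hzx : x ≠ z := by omega
    have hzy : y ≠ z := by omega
    simp [hzn, hzx, hzy] at hz

/-- there is no 8-cycle -/
def NoC8 (G : SimpleGraph V) : Prop := ¬ ∃ (u : V) (w : G.Walk u u), w.IsCycle ∧ w.length = 8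

theorem close_cycle {a b t : V} (w : G.Walk a b) (hw : w.IsPath) (hl : w.length = 6)
    (hta : G.Adj t a) (htb : G.Adj t b) (hnot : t ∉ w.support) :
    ∃ (u : V) (w : G.Walk u u), w.IsCycle ∧ w.length = 8 := by
  have hab : a ≠ b := by
    rintro rfl
    have h0 := (Walk.isPath_iff_nil.1 hw).eq_nil
    rw [h0] at hl
    simp at hl
  refine ⟨t, Walk.cons hta (w.concat htb.symm), ?_, ?_⟩
  · rw [Walk.cons_isCycle_iff]
    refine ⟨?_, ?_⟩
    · rw [Walk.concat_isPath_iff]
      exact ⟨hw, hnot⟩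
    · rw [Walk.edges_concat, List.concat_eq_append, List.mem_append, List.mem_singleton]
      rintro (h | h)
      · exact hnot (Walk.fst_mem_support_of_mem_edges _ h)
      · rw [Sym2.eq_iff] at h
        rcases h with ⟨h1, h2⟩ | ⟨h1, h2⟩
        · exact htb.ne h1
        · exact hab h2
  · rw [Walk.length_cons, Walk.length_concat, hl]

theorem path6_false {Φ : ℕ → V} {adj n x y : ℕ} {t : V} (hno : NoC8 G)
    (hΦ : ∀ i j, i < n → j < n → Φ i = Φ j → i = j)
    (hM : MSound G Φ adj n) (hx : x < n) (hy : y < n) (hxy : x ≠ y) (htx : G.Adj t (Φ x))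
    (hty : G.Adj t (Φ y)) (hnot : ∀ i < n, t ≠ Φ i) : path6 adj n x y = false := by
  rcases h : path6 adj n x y with _ | _
  · rfl
  · exfalso
    obtain ⟨w, h1, h2, h3⟩ := path6_sound hΦ hM hx hy hxy h
    refine hno (close_cycle w h1 h2 htx hty ?_)
    intro hmem
    obtain ⟨z, hz, h4⟩ := h3 _ hmem
    exact hnot z hz h4

end Pool.Agent.C8
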