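import Pool.Agent.Lib_helper45.C8.Closure

/-!
# The structure of critical graphs without 8-cycles
-/

set_option autoImplicit false

namespace Pool.Agent.C8

open SimpleGraph Classical Pool.Agent.Cyc27

variable {V : Type*} (G : SimpleGraph V)

/-- each vertex has no earlier neighbours except its two parents -/
def Exact (P : Par) (n : ℕ) (f : ℕ → V) : Prop :=
  ∀ i, 3 ≤ i → i < n → ∀ j, j < i → G.Adj (f i) (f j) → j = P.p i ∨ j = P.q i

variable [Fintype V]

/-- tight sets are realised by parent systems. -/
theorem exists_real2 (hG : Deg2 G) : ∀ n, 3 ≤ n → ∀ S : Finset V, S.card = n → S ≠ Finset.univ →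
    D G S + 6 = 4 * n → ∃ (P : Par) (f : ℕ → V), Real G P n f ∧ (∀ i < n, f i ∈ S) ∧
      Exact G P n f := by
  intro n hn
  induction n, hn using Nat.le_induction with
  | base =>
    intro S hS hne hD
    obtain ⟨a, b, c, hab, hac, hbc, rfl⟩ := Finset.card_eq_three.1 hS
    have hb : a ∉ ({b, c} : Finset V) := by simp [hab, hac]
    have hb2 : b ∉ ({c} : Finset V) := by simp [hbc]
    have h1 := D_insert G hb
    have h2 := D_insert G hb2
    have h3 := D_one G (S := {c}) (by simp)
    have h4 := dg_le_card G (S := {c}) (v := b)
    have h5 := dg_le_card G (S := {b, c}) (v := a)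
    have h6 : ({b, c} : Finset V).card = 2 := Finset.card_pair hbc
    have h7 : ({c} : Finset V).card = 1 := Finset.card_singleton c
    have h8 : dg G {c} b = 1 := by omega
    have h9 : dg G {b, c} a = 2 := by omega
    have e1 : G.Adj b c := by
      by_contra h
      unfold dg at h8
      rw [Finset.filter_singleton, if_neg h] at h8
      simp at h8
    have e2 : ({b, c} : Finset V).filter (fun w => G.Adj a w) = {b, c} := by
      apply Finset.eq_of_subset_of_card_le (Finset.filter_subset _ _)
      unfold dg at h9
      omega
    have e3 : G.Adj a b := by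
      have : b ∈ ({b, c} : Finset V).filter (fun w => G.Adj a w) := by rw [e2]; simp
      exact (Finset.mem_filter.1 this).2
    have e4 : G.Adj a c := by
      have : c ∈ ({b, c} : Finset V).filter (fun w => G.Adj a w) := by rw [e2]; simp
      exact (Finset.mem_filter.1 this).2
    refine ⟨⟨fun _ => 0, fun _ => 1, fun i hi => by omega, fun i hi => by omega,
      fun i hi => by omega⟩, fun i => if i = 0 then a else if i = 1 then b else c, ?_, ?_⟩
    · refine ⟨le_refl _, ?_, ?_, ?_, ?_, fun i h1 h2 => by omega, fun i h1 h2 => by omega⟩
      · intro i j hi hj hij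
        have hab' := hab.symm
        have hac' := hac.symm
        have hbc' := hbc.symm
        interval_cases i <;> interval_cases j <;> simp_all
      · simpa using e3
      · simpa using e4
      · simpa using e1
    · refine ⟨?_, fun i h1 h2 => by omega⟩
      intro i hi
      interval_cases i <;> simp
  | succ n hn ih =>
    intro S hS hne hD
    obtain ⟨v, hv, hd⟩ := hG S (Finset.card_pos.1 (by omega)) hne
    have hc := Finset.card_erase_of_mem hv
    have hD2 := D_erase G hv
    have hup := D_upper G hG n (by omega) (S.erase v) (by omega) erase_ne_univ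
    obtain ⟨P, f, R, hf, hex⟩ := ih (S.erase v) (by omega) erase_ne_univ (by omega)
    have hdv : dg G (S.erase v) v = 2 := by
      have h2 := dg_insert G (S := S.erase v) (v := v) (u := v) (Finset.notMem_erase v S)
      rw [Finset.insert_erase hv] at h2
      simp at h2
      omega
    have himg : (Finset.range n).image f = S.erase v := by
      apply Finset.eq_of_subset_of_card_le
      · intro x hx
        obtain ⟨i, hi, rfl⟩ := Finset.mem_image.1 hx
        exact hf i (Finset.mem_range.1 hi)
      · rw [Finset.card_image_of_injOn, Finset.card_range]
        · omega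
        · intro i hi j hj hij
          exact R.inj i j (by simpa using hi) (by simpa using hj) hij
    obtain ⟨y, z, hyz, hyz2⟩ := Finset.card_eq_two.1 hdv
    have hy : y ∈ (S.erase v).filter (fun w => G.Adj v w) := by rw [hyz2]; simp
    have hz : z ∈ (S.erase v).filter (fun w => G.Adj v w) := by rw [hyz2]; simp
    rw [Finset.mem_filter] at hy hz
    obtain ⟨hy1, hy2⟩ := hy
    obtain ⟨hz1, hz2⟩ := hz
    rw [← himg, Finset.mem_image] at hy1 hz1
    obtain ⟨i, hi, rfl⟩ := hy1
    obtain ⟨j, hj, rfl⟩ := hz1
    rw [Finset.mem_range] at hi hj
    have hij : i ≠ j := fun h => hyz (by rw [h])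
    refine ⟨⟨Function.update P.p n i, Function.update P.q n j, ?_, ?_, ?_⟩, Function.update f n v, ?_, ?_⟩
    · intro l hl
      by_cases h : l = n
      · subst h; simpa using hi
      · rw [Function.update_of_ne h]; exact P.hp l hl
    · intro l hl
      by_cases h : l = n
      · subst h; simpa using hj
      · rw [Function.update_of_ne h]; exact P.hq l hl
    · intro l hl
      by_cases h : l = n
      · subst h; simpa using hij
      · rw [Function.update_of_ne h, Function.update_of_ne h]; exact P.hpq l hl
    · refine ⟨by omega, ?_, ?_, ?_, ?_, ?_, ?_⟩
      · intro a b ha hb hab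
        by_cases h1 : a = n
        · by_cases h2 : b = n
          · omega
          · rw [h1, Function.update_self, Function.update_of_ne h2] at hab
            exfalso
            have := hf b (by omega)
            rw [← hab] at this
            exact Finset.notMem_erase v S this
        · by_cases h2 : b = n
          · rw [h2, Function.update_self, Function.update_of_ne h1] at hab
            exfalso
            have := hf a (by omega)
            rw [hab] at this
            exact Finset.notMem_erase v S this
          · rw [Function.update_of_ne h1, Function.update_of_ne h2] at hab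
            exact R.inj a b (by omega) (by omega) hab
      · rw [Function.update_of_ne (by omega), Function.update_of_ne (by omega)]; exact R.a01
      · rw [Function.update_of_ne (by omega), Function.update_of_ne (by omega)]; exact R.a02
      · rw [Function.update_of_ne (by omega), Function.update_of_ne (by omega)]; exact R.a12
      · intro l hl hln
        by_cases h : l = n
        · subst h
          simp only [Function.update_self]
          rw [Function.update_of_ne (by omega)]
          exact hy2
        · have := P.hp l hl
          simp only [Function.update_of_ne h]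
          rw [Function.update_of_ne (by omega)]
          exact R.adjp l hl (by omega)
      · intro l hl hln
        by_cases h : l = n
        · subst h
          simp only [Function.update_self]
          rw [Function.update_of_ne (by omega)]
          exact hz2
        · have := P.hq l hl
          simp only [Function.update_of_ne h]
          rw [Function.update_of_ne (by omega)]
          exact R.adjq l hl (by omega)
    · refine ⟨?_, ?_⟩
      · intro l hl
        by_cases h : l = n
        · subst h; rw [Function.update_self]; exact hv
        · rw [Function.update_of_ne h]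
          exact Finset.mem_of_mem_erase (hf l (by omega))
      · intro l hl3 hln m hml hadj
        have hmn : m ≠ n := by omega
        simp only [Function.update_of_ne hmn] at hadj
        by_cases h : l = n
        · subst h
          simp only [Function.update_self] at hadj ⊢
          have h5 : f m ∈ (S.erase v).filter (fun w => G.Adj v w) :=
            Finset.mem_filter.2 ⟨hf m (by omega), hadj⟩
          rw [hyz2] at h5
          simp only [Finset.mem_insert, Finset.mem_singleton] at h5
          rcases h5 with h5 | h5
          · exact Or.inl (R.inj m i (by omega) hi h5)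
          · exact Or.inr (R.inj m j (by omega) hj h5)
        · simp only [Function.update_of_ne h] at hadj ⊢
          exact hex l hl3 (by omega) m hml hadj


theorem dg_split (p : V → Prop) [DecidablePred p] (u : V) :
    dg G Finset.univ u = dg G (Finset.univ.filter p) u + dg G (Finset.univ.filter (fun w => ¬ p w)) u := by
  unfold dg
  rw [Finset.card_filter, Finset.card_filter, Finset.card_filter,
    Finset.sum_filter_add_sum_filter_not]

omit [Fintype V] in
theorem dg_double (A B : Finset V) : ∑ u ∈ A, dg G B u = ∑ u ∈ B, dg G A u := by
  unfold dg
  have h1 := Finset.sum_card_bipartiteAbove_eq_sum_card_bipartiteBelow (s := A) (t := B) G.Adj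
  unfold Finset.bipartiteAbove Finset.bipartiteBelow at h1
  rw [h1]
  refine Finset.sum_congr rfl (fun u _ => ?_)
  congr 1
  ext w
  simp only [Finset.mem_filter]
  exact and_congr_right (fun _ => ⟨fun h => h.symm, fun h => h.symm⟩)

variable {G}

theorem D_all (hE : G.edgeSet.ncard = 2 * Fintype.card V - 2) (hn : 4 ≤ Fintype.card V) :
    D G Finset.univ + 4 = 4 * Fintype.card V := by
  have hU := D_univ G
  rw [hE] at hU
  omega

theorem min_deg (hG : Deg2 G) (hE : G.edgeSet.ncard = 2 * Fintype.card V - 2)
    (hn : 4 ≤ Fintype.card V) (v : V) : 3 ≤ dg G Finset.univ v := by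
  have hU := D_all hE hn
  have hc : (Finset.univ.erase v).card = Fintype.card V - 1 := by
    rw [Finset.card_erase_of_mem (Finset.mem_univ v), Finset.card_univ]
  have he := D_erase G (Finset.mem_univ v)
  have hup := D_upper G hG (Fintype.card V - 1) (by omega) (Finset.univ.erase v) hc erase_ne_univ
  omega

/-- There is a vertex of degree 3 with at most one neighbour of degree 3, or the graph is a
wheel. -/
theorem choose_v (hG : Deg2 G) (hE : G.edgeSet.ncard = 2 * Fintype.card V - 2)
    (hn : 5 ≤ Fintype.card V) :
    (∃ v, dg G Finset.univ v = 3 ∧
      dg G (Finset.univ.filter (fun w => dg G Finset.univ w = 3)) v ≤ 1) ∨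
    ∃ h, ∀ w, w ≠ h → G.Adj w h ∧ dg G Finset.univ w = 3 := by
  by_contra hcon
  push Not at hcon
  obtain ⟨hcon1, hcon2⟩ := hcon
  have hU := D_all hE (by omega)
  have hmin := min_deg hG hE (by omega)
  set W := Finset.univ.filter (fun w => dg G Finset.univ w = 3) with hW
  set Wc := Finset.univ.filter (fun w => ¬ dg G Finset.univ w = 3) with hWc
  have hcard : W.card + Wc.card = Fintype.card V := by
    rw [hW, hWc, Finset.card_filter_add_card_filter_not, Finset.card_univ]
  have hsum : ∑ u ∈ W, dg G Finset.univ u + ∑ u ∈ Wc, dg G Finset.univ u = D G Finset.univ := by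
    unfold D
    exact Finset.sum_filter_add_sum_filter_not _ _ _
  have hsW : ∑ u ∈ W, dg G Finset.univ u = 3 * W.card := by
    rw [Finset.sum_congr rfl (fun u hu => (Finset.mem_filter.1 hu).2), Finset.sum_const,
      smul_eq_mul, mul_comm]
  have hsWc : ∑ u ∈ Wc, dg G Finset.univ u = ∑ u ∈ Wc, dg G W u + D G Wc := by
    unfold D
    rw [← Finset.sum_add_distrib]
    exact Finset.sum_congr rfl (fun u _ => dg_split G (fun w => dg G Finset.univ w = 3) u)
  have hle : ∑ u ∈ Wc, dg G W u ≤ W.card := by
    rw [dg_double G Wc W]
    have : ∀ u ∈ W, dg G Wc u ≤ 1 := by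
      intro u hu
      have h1 := (Finset.mem_filter.1 hu).2
      have h2 := hcon1 u h1
      have h3 := dg_split G (fun w => dg G Finset.univ w = 3) u
      have h4 : dg G (Finset.univ.filter (fun w => dg G Finset.univ w = 3)) u = dg G W u := rfl
      have h5 : dg G (Finset.univ.filter (fun w => ¬ dg G Finset.univ w = 3)) u = dg G Wc u := rfl
      rw [h4, h5] at h3
      have h6 : 1 < dg G W u := h2
      omega
    calc ∑ u ∈ W, dg G Wc u ≤ ∑ _u ∈ W, 1 := Finset.sum_le_sum this
      _ = W.card := by simp
  have hWne : 0 < W.card := by
    by_contra h0
    have h1 : W = ∅ := Finset.card_eq_zero.1 (by omega)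
    have h2 : ∑ v : V, 4 ≤ D G Finset.univ := by
      refine Finset.sum_le_sum (fun v _ => ?_)
      have h3 := hmin v
      have h4 : v ∉ W := by rw [h1]; simp
      have h5 : dg G Finset.univ v ≠ 3 := fun h => h4 (Finset.mem_filter.2 ⟨Finset.mem_univ v, h⟩)
      omega
    simp at h2
    omega
  have hWcu : Wc ≠ Finset.univ := by
    intro h
    rw [h, Finset.card_univ] at hcard
    omega
  have hWc2 : Wc.card < 2 := by
    by_contra h2
    have h3 := D_upper G hG Wc.card (by omega) Wc rfl hWcu
    omega
  rcases Nat.eq_zero_or_pos Wc.card with h0 | h0
  · have h1 : Wc = ∅ := Finset.card_eq_zero.1 h0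
    rw [h1, Finset.sum_empty] at hsum
    omega
  · obtain ⟨h, hh⟩ := Finset.card_eq_one.1 (show Wc.card = 1 by omega)
    have hdh : dg G Finset.univ h + 1 = Fintype.card V := by
      rw [hh, Finset.sum_singleton] at hsum
      omega
    have hnot : ∀ w, w ≠ h → dg G Finset.univ w = 3 := by
      intro w hw
      by_contra h2
      have : w ∈ Wc := Finset.mem_filter.2 ⟨Finset.mem_univ w, h2⟩
      rw [hh, Finset.mem_singleton] at this
      exact hw this
    have hfil : Finset.univ.filter (fun w => G.Adj h w) = Finset.univ.erase h := by
      apply Finset.eq_of_subset_of_card_le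
      · intro w hw
        have := (Finset.mem_filter.1 hw).2
        exact Finset.mem_erase.2 ⟨this.ne', Finset.mem_univ w⟩
      · rw [Finset.card_erase_of_mem (Finset.mem_univ h), Finset.card_univ]
        unfold dg at hdh
        omega
    refine absurd (hcon2 h) ?_
    push Not
    intro w hw
    have h2 : w ∈ Finset.univ.filter (fun w => G.Adj h w) := by
      rw [hfil]
      exact Finset.mem_erase.2 ⟨hw, Finset.mem_univ w⟩
    exact ⟨((Finset.mem_filter.1 h2).2).symm, hnot w hw⟩

end Pool.Agent.C8
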