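import Pool.Agent.Lib_helper45.C8.Struct

/-!
# Wheels have 8-cycles
-/

set_option autoImplicit false

namespace Pool.Agent.C8

open SimpleGraph Classical Pool.Agent.Cyc27

variable {V : Type*} {G : SimpleGraph V}

theorem dg_three {S : Finset V} {u a b c : V} (ha : a ∈ S) (hb : b ∈ S) (hc : c ∈ S)
    (hab : a ≠ b) (hac : a ≠ c) (hbc : b ≠ c) (h1 : G.Adj u a) (h2 : G.Adj u b) (h3 : G.Adj u c) :
    3 ≤ dg G S u := by
  have h : ({a, b, c} : Finset V) ⊆ S.filter (fun w => G.Adj u w) := by
    intro w hw
    simp only [Finset.mem_insert, Finset.mem_singleton] at hw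
    rcases hw with rfl | rfl | rfl
    · exact Finset.mem_filter.2 ⟨ha, h1⟩
    · exact Finset.mem_filter.2 ⟨hb, h2⟩
    · exact Finset.mem_filter.2 ⟨hc, h3⟩
  have h4 := Finset.card_le_card h
  rw [Finset.card_eq_three.2 ⟨a, b, c, hab, hac, hbc, rfl⟩] at h4
  exact h4

variable [Fintype V]

theorem dg_all {S : Finset V} {u : V} (h : ∀ w, G.Adj u w → w ∈ S) :
    dg G S u = dg G Finset.univ u := by
  unfold dg
  congr 1
  ext w
  simp only [Finset.mem_filter, Finset.mem_univ, true_and]
  exact ⟨fun h1 => h1.2, fun h1 => ⟨h w h1, h1⟩⟩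

theorem wheel_path (hG : Deg2 G) (hn : 8 ≤ Fintype.card V) {h : V}
    (hh : ∀ w, w ≠ h → G.Adj w h ∧ dg G Finset.univ w = 3) : ∀ k, k ≤ 6 →
    ∃ (a b : V) (w : G.Walk a b), w.IsPath ∧ h ∉ w.support ∧ w.length = k := by
  intro k
  induction k with
  | zero =>
    intro _
    have : ∃ a : V, a ≠ h := by
      have : Nontrivial V := Fintype.one_lt_card_iff_nontrivial.1 (by omega)
      exact exists_ne h
    obtain ⟨a, ha⟩ := this
    exact ⟨a, a, Walk.nil, by simp, by simpa using ha.symm, rfl⟩
  | succ k ih =>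
    intro hk
    obtain ⟨a, b, w, hp, hs, hl⟩ := ih (by omega)
    by_cases h1 : ∃ c, G.Adj b c ∧ c ≠ h ∧ c ∉ w.support
    · obtain ⟨c, hc1, hc2, hc3⟩ := h1
      refine ⟨a, c, w.concat hc1, ?_, ?_, ?_⟩
      · rw [Walk.concat_isPath_iff]
        exact ⟨hp, hc3⟩
      · rw [Walk.support_concat, List.mem_append, List.mem_singleton]
        rintro (h2 | h2)
        · exact hs h2
        · exact hc2 h2.symm
      · rw [Walk.length_concat, hl]
    by_cases h2 : ∃ c, G.Adj a c ∧ c ≠ h ∧ c ∉ w.support
    · obtain ⟨c, hc1, hc2, hc3⟩ := h2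
      refine ⟨c, b, Walk.cons hc1.symm w, ?_, ?_, ?_⟩
      · rw [Walk.cons_isPath_iff]
        exact ⟨hp, hc3⟩
      · rw [Walk.support_cons, List.mem_cons]
        rintro (h2 | h2)
        · exact hc2 h2.symm
        · exact hs h2
      · rw [Walk.length_cons, hl]
    exfalso
    push Not at h1 h2
    set S : Finset V := insert h w.support.toFinset with hS
    have hmem : ∀ x, x ∈ w.support → x ∈ S := by
      intro x hx
      exact Finset.mem_insert_of_mem (List.mem_toFinset.2 hx)
    have hnb : ∀ x, (∀ c, G.Adj x c → c ≠ h → c ∈ w.support) → dg G S x = dg G Finset.univ x := by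
      intro x hx
      apply dg_all
      intro c hc
      by_cases hch : c = h
      · rw [hch]; exact Finset.mem_insert_self _ _
      · exact hmem c (hx c hc hch)
    have hcardS : S.card = k + 2 := by
      rw [hS, Finset.card_insert_of_notMem (by rwa [List.mem_toFinset]),
        List.toFinset_card_of_nodup hp.support_nodup, Walk.length_support, hl]
    have hane : a ≠ h := fun h3 => hs (h3 ▸ w.start_mem_support)
    have hbne : b ≠ h := fun h3 => hs (h3 ▸ w.end_mem_support)
    have hda : dg G S a = 3 := by rw [hnb a h2]; exact (hh a hane).2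
    have hdb : dg G S b = 3 := by rw [hnb b h1]; exact (hh b hbne).2
    have hk2 : 2 ≤ k := by
      have h3 : S.filter (fun w => G.Adj a w) ⊆ S.erase a := by
        intro x hx
        rw [Finset.mem_filter] at hx
        exact Finset.mem_erase.2 ⟨hx.2.ne', hx.1⟩
      have h4 := Finset.card_le_card h3
      rw [Finset.card_erase_of_mem (hmem a w.start_mem_support), hcardS] at h4
      unfold dg at hda
      omega
    have hne : S ≠ Finset.univ := by
      intro h3
      rw [h3, Finset.card_univ] at hcardS
      omega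
    obtain ⟨u, hu, hd⟩ := hG S ⟨h, Finset.mem_insert_self _ _⟩ hne
    rw [hS, Finset.mem_insert, List.mem_toFinset] at hu
    rcases hu with rfl | hu
    · -- the hub
      have h3 : w.support.toFinset ⊆ S.filter (fun w => G.Adj u w) := by
        intro x hx
        have hx' := List.mem_toFinset.1 hx
        refine Finset.mem_filter.2 ⟨hmem x hx', ?_⟩
        exact (hh x (fun h3 => hs (h3 ▸ hx'))).1.symm
      have h4 := Finset.card_le_card h3
      rw [List.toFinset_card_of_nodup hp.support_nodup, Walk.length_support, hl] at h4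
      unfold dg at hd
      omega
    · obtain ⟨i, hi, hil⟩ := Walk.mem_support_iff_exists_getVert.1 hu
      by_cases h0 : i = 0
      · rw [h0, Walk.getVert_zero] at hi
        rw [← hi, hda] at hd
        omega
      by_cases h3 : i = w.length
      · rw [h3, Walk.getVert_length] at hi
        rw [← hi, hdb] at hd
        omega
      obtain ⟨j, rfl⟩ : ∃ j, i = j + 1 := ⟨i - 1, by omega⟩
      have e1 : G.Adj (w.getVert j) (w.getVert (j + 1)) := w.adj_getVert_succ (by omega)
      have e2 : G.Adj (w.getVert (j + 1)) (w.getVert (j + 1 + 1)) := w.adj_getVert_succ (by omega)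
      rw [hi] at e1 e2
      have hinj := hp.getVert_injOn
      have n1 : w.getVert j ≠ w.getVert (j + 1 + 1) := by
        intro h4
        have := hinj (show j ≤ w.length by omega) (show j + 1 + 1 ≤ w.length by omega) h4
        omega
      have m1 : w.getVert j ∈ w.support := w.getVert_mem_support _
      have m2 : w.getVert (j + 1 + 1) ∈ w.support := w.getVert_mem_support _
      have := dg_three (hmem _ m1) (hmem _ m2) (Finset.mem_insert_self h w.support.toFinset) n1
        (fun h4 => hs (h4 ▸ m1)) (fun h4 => hs (h4 ▸ m2)) e1.symm e2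
        (hh u (fun h4 => hs (h4 ▸ hu))).1
      omega

theorem wheel_cycle (hG : Deg2 G) (hn : 8 ≤ Fintype.card V) {h : V}
    (hh : ∀ w, w ≠ h → G.Adj w h ∧ dg G Finset.univ w = 3) : ¬ NoC8 G := by
  intro hno
  obtain ⟨a, b, w, hp, hs, hl⟩ := wheel_path hG hn hh 6 (by omega)
  have hane : a ≠ h := fun h3 => hs (h3 ▸ w.start_mem_support)
  have hbne : b ≠ h := fun h3 => hs (h3 ▸ w.end_mem_support)
  exact hno (close_cycle w hp hl (hh a hane).1.symm (hh b hbne).1.symm hs)

end Pool.Agent.C8
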